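import Pool.Agent.TH603.GN.Slab

set_option autoImplicit false

/-!
# Geodesic nets: counting the almost vertical collisions of a whole net
-/

namespace Pool.Agent.TH603.GN

open Finset Pool.Agent.W644.GN

variable {ι : Type} [Fintype ι] [DecidableEq ι] {C : Cfg ι}

theorem one_le_uy_mul (hu : IsUnit' C) {a b : ι} (h : C.W a b ≠ 0) :
    1 ≤ C.uy a b * (1 + |sl C a b|) := by
  have h1 := uy_sq hu h
  have h2 := C.uy_pos h
  have h3 := sq_abs (sl C a b)
  have h4 := abs_nonneg (sl C a b)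
  have h5 : 1 ≤ (C.uy a b * (1 + |sl C a b|)) ^ 2 := by
    have : (C.uy a b * (1 + |sl C a b|)) ^ 2 = C.uy a b ^ 2 * (1 + sl C a b ^ 2) +
        2 * C.uy a b ^ 2 * |sl C a b| := by
      rw [← h3]; ring
    rw [this, h1]
    have : 0 ≤ 2 * C.uy a b ^ 2 * |sl C a b| := by positivity
    linarith
  have h6 : 0 ≤ C.uy a b * (1 + |sl C a b|) := by positivity
  nlinarith

/-- if the cross product of two edges is small and one of them is almost vertical then their
slopes are close -/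
theorem close_of_K (hu : IsUnit' C) {a b c d : ι} (h : C.W a b ≠ 0) (h' : C.W c d ≠ 0)
    (h4 : |sl C a b| ≤ 4) {J : ℝ} (hJ : J < 1 / 100) (hK : |C.K a b c d| ≤ J) :
    |sl C c d - sl C a b| ≤ 27 * J := by
  rw [K_eq C h h', abs_mul] at hK
  have h1 := uy_ge hu h h4
  have h2 := one_le_uy_mul hu h'
  have h3 := C.uy_pos h'
  rw [abs_of_pos (mul_pos (by linarith) h3), abs_sub_comm] at hK
  set d' := |sl C c d - sl C a b| with hd
  have hd0 : 0 ≤ d' := abs_nonneg _
  have h5 : |sl C c d| ≤ 4 + d' := by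
    have := abs_add_le (sl C c d - sl C a b) (sl C a b)
    rw [sub_add_cancel] at this
    linarith
  have h6 : 1 ≤ C.uy c d * (5 + d') := by
    refine h2.trans (mul_le_mul_of_nonneg_left (by linarith) h3.le)
  -- d' ≤ 5 J (5 + d')
  have h7 : 1 / 5 * (C.uy c d * d') ≤ J := by
    refine le_trans ?_ hK
    rw [mul_assoc]
    exact mul_le_mul_of_nonneg_right h1 (by positivity)
  have hJ0 : 0 ≤ J := le_trans (by positivity) h7
  have h8 : d' ≤ 5 * J * (5 + d') := by
    have h9 : d' * 1 ≤ d' * (C.uy c d * (5 + d')) := mul_le_mul_of_nonneg_left h6 hd0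
    have h10 : d' * (C.uy c d * (5 + d')) = (C.uy c d * d') * (5 + d') := by ring
    have h11 : (C.uy c d * d') * (5 + d') ≤ (5 * J) * (5 + d') :=
      mul_le_mul_of_nonneg_right (by linarith) (by linarith)
    linarith
  nlinarith

/-- a good vertex: balanced with a small local term -/
structure Good (C : Cfg ι) (v : ι) : Prop where
  dx : C.Dx v = 0
  dy : C.Dy v = 0
  J : C.J v < 1 / 100
  deg : 3 ≤ (outA C v).card + (insA C v).card

/-- an edge at `v`, given by its lower and upper ends -/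
def EdgeAt (C : Cfg ι) (v : ι) (e : ι × ι) : Prop := C.W e.1 e.2 ≠ 0 ∧ (e.1 = v ∨ e.2 = v)

theorem K_le_J {v : ι} (hx : C.Dx v = 0) (hy : C.Dy v = 0) {e f : ι × ι}
    (he : EdgeAt C v e) (hf : EdgeAt C v f) : |C.K e.1 e.2 f.1 f.2| ≤ C.J v := by
  obtain ⟨a, b⟩ := e
  obtain ⟨c, d⟩ := f
  obtain ⟨h1, h2⟩ := he
  obtain ⟨h3, h4⟩ := hf
  simp only at h1 h2 h3 h4 ⊢
  rcases h2 with h2 | h2 <;> rcases h4 with h4 | h4
  · rw [h2, h4]; exact C.oo
  · rw [h2] at h1 ⊢
    rw [h4] at h3 ⊢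
    exact C.oi hx hy h1 h3
  · rw [h2] at h1 ⊢
    rw [h4] at h3 ⊢
    have := C.oi hx hy h3 h1
    have e : C.K a v v d = - C.K v d a v := by unfold Cfg.K; ring
    rw [e, abs_neg]; exact this
  · rw [h2, h4]; exact C.ii

theorem Good.close (hu : IsUnit' C) {v : ι} (h : Good C v) {e f : ι × ι}
    (he : EdgeAt C v e) (hf : EdgeAt C v f) (h4 : |sl C e.1 e.2| ≤ 4) :
    |sl C f.1 f.2 - sl C e.1 e.2| ≤ 27 * C.J v :=
  close_of_K hu he.1 hf.1 h4 h.J (K_le_J h.dx h.dy he hf)

theorem out_iff_in {v : ι} (hy : C.Dy v = 0) : (outA C v).Nonempty ↔ (insA C v).Nonempty := by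
  have h : ∑ b ∈ outA C v, C.uy v b = ∑ a ∈ insA C v, C.uy a v := by
    rw [sum_outA_uy, sum_insA_uy]; unfold Cfg.Dy at hy; linarith
  constructor
  · intro h1
    by_contra h2
    rw [Finset.not_nonempty_iff_eq_empty] at h2
    have h3 : 0 < ∑ b ∈ outA C v, C.uy v b :=
      Finset.sum_pos (fun b hb => C.uy_pos (mem_outA.1 hb)) h1
    rw [h, h2] at h3
    simp at h3
  · intro h1
    by_contra h2
    rw [Finset.not_nonempty_iff_eq_empty] at h2
    have h3 : 0 < ∑ b ∈ insA C v, C.uy b v :=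
      Finset.sum_pos (fun b hb => C.uy_pos (mem_insA.1 hb)) h1
    rw [← h, h2] at h3
    simp at h3

theorem Good.nonempty {v : ι} (h : Good C v) : (outA C v).Nonempty ∧ (insA C v).Nonempty := by
  have h1 := out_iff_in h.dy
  by_cases h2 : (outA C v).Nonempty
  · exact ⟨h2, h1.1 h2⟩
  · have h3 : ¬ (insA C v).Nonempty := fun h' => h2 (h1.2 h')
    rw [Finset.not_nonempty_iff_eq_empty] at h2 h3
    have := h.deg
    rw [h2, h3] at this
    simp at this

/-- at a good vertex with an almost vertical edge, `1 - ip ≤ K ^ 2` -/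
theorem ip_bound (hu : IsUnit' C) {v : ι} (h : Good C v) {e f : ι × ι}
    (he : EdgeAt C v e) (hf : EdgeAt C v f) {g : ι × ι} (hg : EdgeAt C v g)
    (h4 : |sl C g.1 g.2| ≤ 4) : 1 - ip C e f ≤ C.K e.1 e.2 f.1 f.2 ^ 2 := by
  have h1 := h.close hu hg he h4
  have h2 := h.close hu hg hf h4
  have hJ := h.J
  have h3 : 0 ≤ ip C e f := by
    have e1 : ip C e f = C.uy e.1 e.2 * C.uy f.1 f.2 * (1 + sl C e.1 e.2 * sl C f.1 f.2) := by
      unfold ip; rw [ux_eq C he.1, ux_eq C hf.1]; ring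
    rw [e1]
    have h5 := C.uy_pos he.1
    have h6 := C.uy_pos hf.1
    refine mul_nonneg (mul_pos h5 h6).le ?_
    rw [abs_le] at h1 h2
    nlinarith [sq_nonneg (sl C e.1 e.2 + sl C f.1 f.2)]
  have h5 := ip_sq hu he.1 hf.1
  have h6 := ip_le_one hu he.1 hf.1
  nlinarith

omit [DecidableEq ι] in
theorem sum_le_of_row (S : Finset ι) (F : ι → ℝ) (K : ι → ℝ) (J : ℝ) (hJ : 0 ≤ J)
    (hK : ∀ f ∈ S, |K f| ≤ J) (hF : ∀ f ∈ S, F f ≤ K f ^ 2) (hs : ∑ f, |K f| ≤ J) :
    ∑ f ∈ S, F f ≤ J ^ 2 := by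
  calc ∑ f ∈ S, F f ≤ ∑ f ∈ S, J * |K f| := by
        refine Finset.sum_le_sum fun f hf => (hF f hf).trans ?_
        rw [← sq_abs, sq]
        exact mul_le_mul_of_nonneg_right (hK f hf) (abs_nonneg _)
    _ = J * ∑ f ∈ S, |K f| := by rw [Finset.mul_sum]
    _ ≤ J * J := by
        refine mul_le_mul_of_nonneg_left (le_trans ?_ hs) hJ
        exact Finset.sum_le_sum_of_subset_of_nonneg (Finset.subset_univ _)
          (fun _ _ _ => abs_nonneg _)
    _ = J ^ 2 := by ring

theorem Good.card_eq (hu : IsUnit' C) {v : ι} (h : Good C v) {g : ι × ι} (hg : EdgeAt C v g)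
    (h4 : |sl C g.1 g.2| ≤ 4) : (outA C v).card = (insA C v).card := by
  obtain ⟨⟨b0, hb0⟩, ⟨a0, ha0⟩⟩ := h.nonempty
  have hJ0 := C.J_nonneg v
  have hJ := h.J
  rw [mem_outA] at hb0
  rw [mem_insA] at ha0
  have eO : ∀ b, b ∈ outA C v → EdgeAt C v (v, b) := fun b hb => ⟨mem_outA.1 hb, Or.inl rfl⟩
  have eI : ∀ a, a ∈ insA C v → EdgeAt C v (a, v) := fun a ha => ⟨mem_insA.1 ha, Or.inr rfl⟩
  have hx : ∑ b ∈ outA C v, C.ux v b = ∑ a ∈ insA C v, C.ux a v := by
    have := h.dx
    rw [sum_outA_ux, sum_insA_ux]; unfold Cfg.Dx at this; linarith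
  have hy : ∑ b ∈ outA C v, C.uy v b = ∑ a ∈ insA C v, C.uy a v := by
    have := h.dy
    rw [sum_outA_uy, sum_insA_uy]; unfold Cfg.Dy at this; linarith
  have hip : ∀ e : ι × ι, ∑ b ∈ outA C v, ip C e (v, b) = ∑ a ∈ insA C v, ip C e (a, v) := by
    intro e
    unfold ip
    simp only [Finset.sum_add_distrib, ← Finset.mul_sum]
    rw [hx, hy]
  have hle1 : ((outA C v).card : ℝ) ≤ (insA C v).card + C.J v ^ 2 := by
    have e0 : EdgeAt C v (v, b0) := ⟨hb0, Or.inl rfl⟩
    have h1 : ∑ b ∈ outA C v, (1 - ip C (v, b0) (v, b)) ≤ C.J v ^ 2 := by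
      refine sum_le_of_row _ _ (fun b => C.K v b0 v b) _ hJ0 (fun b hb => C.oo)
        (fun b hb => ip_bound hu h e0 (eO b hb) hg h4) ?_
      refine (C.row_out v b0).trans ?_
      rw [C.J_eq]; linarith [C.Ji_nonneg v]
    rw [Finset.sum_sub_distrib, hip] at h1
    have h2 : ∑ a ∈ insA C v, ip C (v, b0) (a, v) ≤ ((insA C v).card : ℝ) := by
      refine (Finset.sum_le_card_nsmul _ _ 1 fun a ha =>
        ip_le_one hu (e := (v, b0)) (f := (a, v)) hb0 (mem_insA.1 ha)).trans ?_
      rw [nsmul_eq_mul, mul_one]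
    simp only [Finset.sum_const, nsmul_eq_mul, mul_one] at h1
    linarith
  have hle2 : ((insA C v).card : ℝ) ≤ (outA C v).card + C.J v ^ 2 := by
    have e0 : EdgeAt C v (a0, v) := ⟨ha0, Or.inr rfl⟩
    have h1 : ∑ a ∈ insA C v, (1 - ip C (a0, v) (a, v)) ≤ C.J v ^ 2 := by
      refine sum_le_of_row _ _ (fun a => C.K a0 v a v) _ hJ0 (fun b hb => C.ii)
        (fun b hb => ip_bound hu h e0 (eI b hb) hg h4) ?_
      refine (C.row_in v a0).trans ?_
      rw [C.J_eq]; linarith [C.Jo_nonneg v]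
    rw [Finset.sum_sub_distrib, ← hip] at h1
    have h2 : ∑ b ∈ outA C v, ip C (a0, v) (v, b) ≤ ((outA C v).card : ℝ) := by
      refine (Finset.sum_le_card_nsmul _ _ 1 fun b hb =>
        ip_le_one hu (e := (a0, v)) (f := (v, b)) ha0 (mem_outA.1 hb)).trans ?_
      rw [nsmul_eq_mul, mul_one]
    simp only [Finset.sum_const, nsmul_eq_mul, mul_one] at h1
    linarith
  have hJ2 : C.J v ^ 2 < 1 := by nlinarith
  have h1 : ((outA C v).card : ℝ) < ((insA C v).card + 1 : ℕ) := by push_cast; linarith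
  have h2 : ((insA C v).card : ℝ) < ((outA C v).card + 1 : ℕ) := by push_cast; linarith
  have h3 : (outA C v).card < (insA C v).card + 1 := by exact_mod_cast h1
  have h5 : (insA C v).card < (outA C v).card + 1 := by exact_mod_cast h2
  omega

theorem sum_cut_uy_le {α β t : ℝ} : ∑ e ∈ cut C α β t, C.uy e.1 e.2 ≤ C.Ty := by
  classical
  have h := Cfg.chi_le (fun a b => C.uy a b) (fun w => if C.y w ≤ t then (1:ℝ) else 0)
    (fun w => by split_ifs <;> norm_num) (fun w => by split_ifs <;> norm_num)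
  refine le_trans ?_ h
  rw [← Finset.sum_product', Finset.univ_product_univ, cut, Finset.sum_filter]
  refine Finset.sum_le_sum fun e _ => ?_
  by_cases hW : C.W e.1 e.2 = 0
  · simp [uyW hW, hW]
  have hab := C.W_up _ _ hW
  have hu := C.uy_nonneg e.1 e.2
  rw [← ind1 hab]
  split_ifs with h1 h2 h2
  · linarith
  · exact absurd h1.2 h2
  · simpa using hu
  · simp

theorem card_cut_le (hu : IsUnit' C) {t : ℝ} {m : ℕ} (hm : 5 * C.Ty ≤ m) :
    (cut C (-4) 4 t).card ≤ m := by
  have h1 : ((cut C (-4) 4 t).card : ℝ) * (1 / 5) ≤ ∑ e ∈ cut C (-4) 4 t, C.uy e.1 e.2 := by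
    rw [← nsmul_eq_mul]
    exact Finset.card_nsmul_le_sum _ _ _ fun e he =>
      uy_ge hu (cut_W e he) (cut_four le_rfl le_rfl e he)
  have h2 := sum_cut_uy_le (C := C) (α := -4) (β := 4) (t := t)
  have h3 : ((cut C (-4) 4 t).card : ℝ) ≤ m := by linarith
  exact_mod_cast h3

/-- the isolated window of the near vertical family in a slab of small total `J` without bad
vertices -/
theorem exists_isolated (hu : IsUnit' C) {X : Finset ι} (hX : ∀ v ∈ X, Crs C v) {t0 t1 : ℝ}
    (m : ℕ) (hm : 5 * C.Ty ≤ m)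
    (hgood : ∀ v, t0 < C.y v → C.y v ≤ t1 → v ∉ X → Good C v)
    (hJ : ∑ v ∈ univ.filter (fun v => v ∉ X ∧ t0 < C.y v ∧ C.y v ≤ t1), C.J v <
      1 / (27 * ((m : ℝ) + 1))) :
    ∃ α β : ℝ, -4 ≤ α ∧ α ≤ -2 ∧ 2 ≤ β ∧ β ≤ 4 ∧ SlabOK C X α β t0 t1 := by
  classical
  have hm0 : (0:ℝ) < (m : ℝ) + 1 := by positivity
  let j : ι → ℝ := fun v => if v ∉ X ∧ t0 < C.y v ∧ C.y v ≤ t1 then 27 * C.J v else 0
  have hj : ∀ v, 0 ≤ j v := fun v => by
    simp only [j]
    split_ifs
    · have := C.J_nonneg v; linarith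
    · exact le_rfl
  have hcum : ∀ s, cum C j t0 s < 1 / ((m : ℝ) + 1) := by
    intro s
    have h1 : cum C j t0 s ≤ ∑ v, j v :=
      Finset.sum_le_sum_of_subset_of_nonneg (Finset.filter_subset _ _) (fun v _ _ => hj v)
    have h2 : ∑ v, j v = 27 * ∑ v ∈ univ.filter (fun v => v ∉ X ∧ t0 < C.y v ∧ C.y v ≤ t1),
        C.J v := by
      simp only [j]
      rw [← Finset.sum_filter, Finset.mul_sum]
    have h3 : 27 * (1 / (27 * ((m : ℝ) + 1))) = 1 / ((m : ℝ) + 1) := by field_simp
    linarith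
  have hA := card_cut_le hu (t := t0) hm
  obtain ⟨β, w, hw, hβ1, hβ2, hβf⟩ := gap (cut C (-4) 4 t0) (fun e => sl C e.1 e.2) m hA
    (show (2:ℝ) < 4 by norm_num)
  obtain ⟨α, w', hw', hα1, hα2, hαf⟩ := gap (cut C (-4) 4 t0) (fun e => sl C e.1 e.2) m hA
    (show (-4:ℝ) < -2 by norm_num)
  have hw1 : w = 1 / ((m : ℝ) + 1) := by rw [hw]; field_simp; norm_num
  have hw1' : w' = 1 / ((m : ℝ) + 1) := by rw [hw']; field_simp; norm_num
  have hw0 : 0 < w := by rw [hw1]; positivity
  have hw0' : 0 < w' := by rw [hw1']; positivity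
  -- a common persistence statement
  have hper : ∀ γ w : ℝ, w = 1 / ((m : ℝ) + 1) → -4 ≤ γ - w → γ + w ≤ 4 →
      (∀ e ∈ cut C (-4) 4 t0, sl C e.1 e.2 ≤ γ - w ∨ γ + w ≤ sl C e.1 e.2) →
      ∀ a b, C.W a b ≠ 0 → C.y a ≤ t1 → t0 < C.y b →
      sl C a b ≤ γ - w + cum C j t0 (C.y a) ∨ γ + w - cum C j t0 (C.y a) ≤ sl C a b := by
    intro γ w hw h1 h2 hf
    have hw0 : 0 < w := by rw [hw]; positivity
    refine persist hj ?_ ?_
    · intro a b hW h3 h4
      by_cases hs : -4 < sl C a b ∧ sl C a b < 4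
      · exact hf (a, b) (mem_cut.2 ⟨⟨hW, hs⟩, h3, h4⟩)
      · by_cases hs' : -4 < sl C a b
        · right
          have := not_lt.1 (fun h => hs ⟨hs', h⟩)
          linarith
        · left; linarith [not_lt.1 hs']
    · intro v h3 h4 b hW h5 h6
      by_cases hvX : v ∈ X
      · have h4 := hX v hvX (fun s => if s = sl C v b then 1 else 0)
        have h5 : (1:ℝ) ≤ ∑ b' ∈ outA C v, (if sl C v b' = sl C v b then (1:ℝ) else 0) := by
          refine le_trans ?_ (Finset.single_le_sum (f := fun b' =>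
            (if sl C v b' = sl C v b then (1:ℝ) else 0)) (fun b' _ => by split_ifs <;> norm_num)
            (mem_outA.2 hW))
          simp
        rw [h4] at h5
        by_contra hcon
        push Not at hcon
        have h6 : ∑ a ∈ insA C v, (if sl C a v = sl C v b then (1:ℝ) else 0) = 0 := by
          refine Finset.sum_eq_zero fun a ha => if_neg ?_
          intro h7
          have := hcon a (mem_insA.1 ha)
          rw [h7, sub_self, abs_zero] at this
          linarith [hj v]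
        linarith
      · have hg := hgood v h3 h4 hvX
        obtain ⟨-, ⟨a, ha⟩⟩ := hg.nonempty
        rw [mem_insA] at ha
        refine ⟨a, ha, ?_⟩
        have h7 : j v = 27 * C.J v := if_pos ⟨hvX, h3, h4⟩
        rw [h7, abs_sub_comm]
        exact hg.close hu (e := (v, b)) (f := (a, v)) ⟨hW, Or.inl rfl⟩ ⟨ha, Or.inr rfl⟩
          (by rw [abs_le]; constructor <;> simp only <;> linarith)
  have pβ := hper β w hw1 (by linarith) (by linarith) hβf
  have pα := hper α w' hw1' (by linarith) (by linarith) hαf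
  refine ⟨α, β, by linarith, by linarith, by linarith, by linarith, ?_⟩
  intro v h0 h1
  by_cases hvX : v ∈ X
  · exact Or.inl hvX
  right
  by_cases hirr : Irr C α β v
  · exact Or.inl hirr
  right
  have hg := hgood v h0 h1 hvX
  have hex : ∃ e, EdgeAt C v e ∧ α < sl C e.1 e.2 ∧ sl C e.1 e.2 < β := by
    by_contra hcon
    push Not at hcon
    apply hirr
    constructor
    · rintro b hb ⟨h2, h3⟩
      exact absurd h3 (not_lt.2 (hcon (v, b) ⟨hb, Or.inl rfl⟩ h2))
    · rintro b hb ⟨h2, h3⟩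
      exact absurd h3 (not_lt.2 (hcon (b, v) ⟨hb, Or.inr rfl⟩ h2))
  obtain ⟨e, he, he1, he2⟩ := hex
  obtain ⟨-, ⟨a, ha⟩⟩ := hg.nonempty
  rw [mem_insA] at ha
  have hlt := C.W_up a v ha
  have hjv : j v = 27 * C.J v := if_pos ⟨hvX, h0, h1⟩
  have hstep := cum_step (C := C) hj h0 hlt
  have hc := hcum (C.y v)
  rw [hjv] at hstep
  have hea : EdgeAt C v (a, v) := ⟨ha, Or.inr rfl⟩
  have hcl := abs_le.1 (hg.close hu he hea (by rw [abs_le]; constructor <;> linarith))
  simp only at hcl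
  have s1 : sl C a v ≤ β - w + cum C j t0 (C.y a) := by
    rcases pβ a v ha (by linarith) h0 with h | h
    · exact h
    · exfalso; linarith [hcl.2]
  have s2 : α + w' - cum C j t0 (C.y a) ≤ sl C a v := by
    rcases pα a v ha (by linarith) h0 with h | h
    · exfalso; linarith [hcl.1]
    · exact h
  have hJ0 := C.J_nonneg v
  have hall : ∀ f, EdgeAt C v f → α < sl C f.1 f.2 ∧ sl C f.1 f.2 < β := by
    intro f hf
    have := abs_le.1 (hg.close hu hea hf (by
      rw [abs_le]; constructor <;> simp only <;> linarith))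
    simp only at this
    constructor <;> linarith [this.1, this.2]
  have hcard := hg.card_eq hu he (by rw [abs_le]; constructor <;> linarith)
  refine ⟨hg.dx, hg.dy, hcard, ?_, fun b hb => hall (v, b) ⟨hb, Or.inl rfl⟩,
    fun b hb => hall (b, v) ⟨hb, Or.inr rfl⟩⟩
  have := hg.deg
  omega

open Classical in
/-- the bad vertices -/
noncomputable def bad (C : Cfg ι) (X : Finset ι) : Finset ι :=
  univ.filter (fun v => v ∉ X ∧ ¬ Good C v)

open Classical in
/-- the good vertices with an almost vertical edge -/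
noncomputable def near (C : Cfg ι) (X : Finset ι) : Finset ι :=
  univ.filter (fun v => v ∉ X ∧ Good C v ∧ ∃ e, EdgeAt C v e ∧ |sl C e.1 e.2| ≤ 1)

/-- **Counting the almost vertical collisions.** -/
theorem near_card (hu : IsUnit' C) {X : Finset ι} (hX : ∀ v ∈ X, Crs C v) (m : ℕ)
    (hm : 5 * C.Ty ≤ m) (B : ℕ)
    (hB : ((bad C X).card : ℝ) + 81 * ((m : ℝ) + 1) * (C.Tx * C.Ty) < B) :
    (near C X).card ≤ B * (Nn m + 1) := by
  classical
  have hm0 : (0:ℝ) < (m : ℝ) + 1 := by positivity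
  set η : ℝ := 1 / (27 * ((m : ℝ) + 1)) with hη
  have hη0 : 0 < η := by positivity
  let j : ι → ℝ := fun v => if Good C v then C.J v else η
  have hj : ∀ v, 0 ≤ j v := fun v => by
    simp only [j]
    split_ifs
    · exact C.J_nonneg v
    · exact hη0.le
  refine count_classes (near C X) (univ.filter (fun v => v ∉ X)) C.y
    (fun a _ b _ h => C.y_inj a b h) j (fun v _ => hj v) η hη0 B (Nn m) ?_ ?_
  · have h1 : ∑ v ∈ univ.filter (fun v => v ∉ X), j v ≤
        ∑ v, C.J v + ((bad C X).card : ℝ) * η := by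
      have h2 : ((bad C X).card : ℝ) * η = ∑ v ∈ univ.filter (fun v => v ∉ X),
          if Good C v then 0 else η := by
        rw [← nsmul_eq_mul, ← Finset.sum_const, bad]
        have : (univ.filter (fun v => v ∉ X ∧ ¬ Good C v)) =
            (univ.filter (fun v => v ∉ X)).filter (fun v => ¬ Good C v) := by
          rw [Finset.filter_filter]
        rw [this, Finset.sum_filter]
        refine Finset.sum_congr rfl fun v _ => ?_
        by_cases h : Good C v
        · simp [h]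
        · simp [h]
      have h3 : ∑ v ∈ univ.filter (fun v => v ∉ X), C.J v ≤ ∑ v, C.J v :=
        Finset.sum_le_sum_of_subset_of_nonneg (Finset.filter_subset _ _)
          (fun v _ _ => C.J_nonneg v)
      rw [h2]
      refine le_trans ?_ (add_le_add_left h3 _)
      rw [← Finset.sum_add_distrib]
      refine Finset.sum_le_sum fun v _ => ?_
      simp only [j]
      split_ifs
      · simp
      · linarith [C.J_nonneg v]
    have h4 := C.sum_J_le
    have h5 : (((bad C X).card : ℝ) + 81 * ((m : ℝ) + 1) * (C.Tx * C.Ty)) * η < B * η :=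
      mul_lt_mul_of_pos_right hB hη0
    have h6 : (((bad C X).card : ℝ) + 81 * ((m : ℝ) + 1) * (C.Tx * C.Ty)) * η =
        3 * (C.Tx * C.Ty) + ((bad C X).card : ℝ) * η := by
      rw [hη]; field_simp; ring
    linarith
  · intro u hu' s hus hsum
    have hsub : ∀ v, C.y u < C.y v → C.y v ≤ s → v ∉ X → j v < η := by
      intro v h1 h2 h3
      refine lt_of_le_of_lt ?_ hsum
      exact Finset.single_le_sum (f := j) (fun v _ => hj v)
        (Finset.mem_filter.2 ⟨Finset.mem_filter.2 ⟨Finset.mem_univ _, h3⟩, h1, h2⟩)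
    have hgood : ∀ v, C.y u < C.y v → C.y v ≤ s → v ∉ X → Good C v := by
      intro v h1 h2 h3
      by_contra hcon
      have := hsub v h1 h2 h3
      simp only [j, if_neg hcon] at this
      exact lt_irrefl _ this
    obtain ⟨α, β, h1, h2, h3, h4, hS⟩ := exists_isolated hu hX (t0 := C.y u) (t1 := s) m hm hgood
      (by
        refine lt_of_le_of_lt (le_of_eq ?_) hsum
        rw [Finset.filter_filter]
        refine Finset.sum_congr rfl fun v hv => ?_
        obtain ⟨-, a1, a2, a3⟩ := Finset.mem_filter.1 hv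
        simp only [j, if_pos (hgood v a2 a3 a1)])
    have h5 : (near C X).filter (fun v => C.y u < C.y v ∧ C.y v ≤ s) ⊆
        RS C X α β (C.y u) s := by
      intro v hv
      obtain ⟨h6, h7, h8⟩ := Finset.mem_filter.1 hv
      obtain ⟨-, h9, h10, e, he, he1⟩ := Finset.mem_filter.1 h6
      refine mem_RS.2 ⟨⟨h7, h8⟩, h9, ?_⟩
      rcases hS v h7 h8 with h | h | h
      · exact absurd h h9
      · exfalso
        rw [abs_le] at he1
        obtain ⟨a, b⟩ := e
        obtain ⟨q1, q2⟩ := he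
        simp only at q1 q2 he1
        rcases q2 with rfl | rfl
        · exact h.1 b q1 ⟨by linarith, by linarith⟩
        · exact h.2 a q1 ⟨by linarith, by linarith⟩
      · exact h
    refine (Finset.card_le_card h5).trans (slab_count hu hX m α β (C.y u) s h1 h4 ?_ hS)
    refine le_trans (Finset.card_le_card ?_) (card_cut_le hu (t := C.y u) hm)
    intro e he
    obtain ⟨⟨a1, a2, a3⟩, a4⟩ := mem_cut.1 he
    exact mem_cut.2 ⟨⟨a1, by linarith, by linarith⟩, a4⟩

end Pool.Agent.TH603.GN
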