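import Pool.Agent.W644.GN.Degree

set_option autoImplicit false

/-!
# Geodesic nets: slopes, conserved quantities across a slab, energy
-/

namespace Pool.Agent.TH603.GN

open Finset Pool.Agent.W644.GN

variable {ι : Type} [Fintype ι] [DecidableEq ι] (C : Cfg ι)

/-- slope (horizontal over vertical increment) of the pair `a b` -/
noncomputable def sl (a b : ι) : ℝ := (C.x b - C.x a) / (C.y b - C.y a)

theorem ux_eq {a b : ι} (h : C.W a b ≠ 0) : C.ux a b = sl C a b * C.uy a b := by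
  have h1 := C.W_up a b h
  have h2 : C.y b - C.y a ≠ 0 := by intro h3; linarith
  unfold Cfg.ux Cfg.uy sl
  field_simp

theorem K_eq {a b c d : ι} (h : C.W a b ≠ 0) (h' : C.W c d ≠ 0) :
    C.K a b c d = C.uy a b * C.uy c d * (sl C a b - sl C c d) := by
  unfold Cfg.K; rw [ux_eq C h, ux_eq C h']; ring

/-- all edge vectors are unit vectors -/
def IsUnit' : Prop := ∀ a b, C.W a b ≠ 0 → C.ux a b ^ 2 + C.uy a b ^ 2 = 1

variable {C}

theorem uy_sq (hu : IsUnit' C) {a b : ι} (h : C.W a b ≠ 0) :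
    C.uy a b ^ 2 * (1 + sl C a b ^ 2) = 1 := by
  have := hu a b h
  rw [ux_eq C h] at this
  nlinarith

theorem uy_le_one (hu : IsUnit' C) {a b : ι} (h : C.W a b ≠ 0) : C.uy a b ≤ 1 := by
  have h1 := hu a b h
  have h2 := C.uy_pos h
  nlinarith [sq_nonneg (C.ux a b)]

theorem uy_ge (hu : IsUnit' C) {a b : ι} (h : C.W a b ≠ 0) (h4 : |sl C a b| ≤ 4) :
    1 / 5 ≤ C.uy a b := by
  have h1 := uy_sq hu h
  have h2 := C.uy_pos h
  have h3 : sl C a b ^ 2 ≤ 16 := by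
    have := sq_abs (sl C a b)
    nlinarith [abs_nonneg (sl C a b)]
  by_contra hc
  push Not at hc
  have h5 : C.uy a b ^ 2 < 1 / 25 := by nlinarith
  nlinarith [sq_nonneg (C.uy a b)]

/-- slopes are controlled by cross products -/
theorem sl_sub_le (hu : IsUnit' C) {a b c d : ι} (h : C.W a b ≠ 0) (h' : C.W c d ≠ 0)
    (h4 : |sl C a b| ≤ 4) (h4' : |sl C c d| ≤ 4) :
    |sl C a b - sl C c d| ≤ 25 * |C.K a b c d| := by
  rw [K_eq C h h', abs_mul]
  have h1 := uy_ge hu h h4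
  have h2 := uy_ge hu h' h4'
  have h3 : 1 / 25 ≤ C.uy a b * C.uy c d := by nlinarith
  rw [abs_of_pos (by linarith : 0 < C.uy a b * C.uy c d)]
  have := abs_nonneg (sl C a b - sl C c d)
  nlinarith

/-- the inner product of two edge vectors -/
noncomputable def ip (C : Cfg ι) (e f : ι × ι) : ℝ :=
  C.ux e.1 e.2 * C.ux f.1 f.2 + C.uy e.1 e.2 * C.uy f.1 f.2

theorem ip_sq (hu : IsUnit' C) {e f : ι × ι} (h : C.W e.1 e.2 ≠ 0) (h' : C.W f.1 f.2 ≠ 0) :
    ip C e f ^ 2 + C.K e.1 e.2 f.1 f.2 ^ 2 = 1 := by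
  have h1 := hu _ _ h
  have h2 := hu _ _ h'
  have : ip C e f ^ 2 + C.K e.1 e.2 f.1 f.2 ^ 2 =
      (C.ux e.1 e.2 ^ 2 + C.uy e.1 e.2 ^ 2) * (C.ux f.1 f.2 ^ 2 + C.uy f.1 f.2 ^ 2) := by
    unfold ip Cfg.K; ring
  rw [this, h1, h2]; ring

theorem ip_le_one (hu : IsUnit' C) {e f : ι × ι} (h : C.W e.1 e.2 ≠ 0) (h' : C.W f.1 f.2 ≠ 0) :
    ip C e f ≤ 1 := by
  have := ip_sq hu h h'
  nlinarith [sq_nonneg (C.K e.1 e.2 f.1 f.2)]

theorem K_sq_le (hu : IsUnit' C) {e f : ι × ι} (h : C.W e.1 e.2 ≠ 0) (h' : C.W f.1 f.2 ≠ 0) :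
    C.K e.1 e.2 f.1 f.2 ^ 2 ≤ 2 * (1 - ip C e f) := by
  have h1 := ip_sq hu h h'
  have h2 := ip_le_one hu h h'
  nlinarith [sq_nonneg (1 - ip C e f)]

theorem one_sub_ip_le (hu : IsUnit' C) {e f : ι × ι} (h : C.W e.1 e.2 ≠ 0)
    (h' : C.W f.1 f.2 ≠ 0) :
    2 * (1 - ip C e f) ≤ (sl C e.1 e.2 - sl C f.1 f.2) ^ 2 := by
  have h1 := ip_sq hu h h'
  have h2 := ip_le_one hu h h'
  have h3 := K_eq C h h'
  set p := C.uy e.1 e.2 with hp
  set q := C.uy f.1 f.2 with hq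
  have hp0 : 0 < p := C.uy_pos h
  have hq0 : 0 < q := C.uy_pos h'
  have hp1 : p ≤ 1 := uy_le_one hu h
  have hq1 : q ≤ 1 := uy_le_one hu h'
  have h4 : 2 * (p * q) ≤ 1 + ip C e f := by
    have h5 := hu _ _ h
    have h6 := hu _ _ h'
    unfold ip
    rw [← hp, ← hq] at *
    nlinarith [sq_nonneg (C.ux e.1 e.2 + C.ux f.1 f.2), sq_nonneg (p - q)]
  have hpq : 0 < p * q := mul_pos hp0 hq0
  have hpq1 : p * q ≤ 1 := by nlinarith
  have h7 : 2 * (p * q) ^ 2 ≤ 1 + ip C e f := by nlinarith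
  have h8 : (p * q) ^ 2 * (2 * (1 - ip C e f)) ≤ (p * q) ^ 2 *
      (sl C e.1 e.2 - sl C f.1 f.2) ^ 2 := by
    have h9 : (p * q) ^ 2 * (sl C e.1 e.2 - sl C f.1 f.2) ^ 2 =
        (1 - ip C e f) * (1 + ip C e f) := by
      have : (p * q) ^ 2 * (sl C e.1 e.2 - sl C f.1 f.2) ^ 2 = C.K e.1 e.2 f.1 f.2 ^ 2 := by
        rw [h3]; ring
      rw [this]; linarith
    rw [h9]
    have := mul_le_mul_of_nonneg_left h7 (sub_nonneg.2 h2)
    linarith
  exact le_of_mul_le_mul_left h8 (by positivity)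

/-! ### cuts -/

open Classical in
/-- the edges crossing height `t` (just above it) with slope in `(α, β)` -/
noncomputable def cut (C : Cfg ι) (α β t : ℝ) : Finset (ι × ι) :=
  univ.filter (fun e => (C.W e.1 e.2 ≠ 0 ∧ α < sl C e.1 e.2 ∧ sl C e.1 e.2 < β) ∧
    C.y e.1 ≤ t ∧ t < C.y e.2)

open Classical in
/-- the upward edges at `v` with slope in `(α, β)` -/
noncomputable def outs (C : Cfg ι) (α β : ℝ) (v : ι) : Finset ι :=
  univ.filter (fun b => C.W v b ≠ 0 ∧ α < sl C v b ∧ sl C v b < β)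

open Classical in
/-- the downward edges at `v` with slope in `(α, β)` -/
noncomputable def ins (C : Cfg ι) (α β : ℝ) (v : ι) : Finset ι :=
  univ.filter (fun a => C.W a v ≠ 0 ∧ α < sl C a v ∧ sl C a v < β)

theorem mem_cut {α β t : ℝ} {e : ι × ι} : e ∈ cut C α β t ↔
    (C.W e.1 e.2 ≠ 0 ∧ α < sl C e.1 e.2 ∧ sl C e.1 e.2 < β) ∧ C.y e.1 ≤ t ∧ t < C.y e.2 := by
  simp [cut]

theorem mem_outs {α β : ℝ} {v b : ι} : b ∈ outs C α β v ↔
    C.W v b ≠ 0 ∧ α < sl C v b ∧ sl C v b < β := by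
  simp [outs]

theorem mem_ins {α β : ℝ} {v a : ι} : a ∈ ins C α β v ↔
    C.W a v ≠ 0 ∧ α < sl C a v ∧ sl C a v < β := by
  simp [ins]

omit [DecidableEq ι] in
theorem chi_eq (u : ι → ι → ℝ) (χ : ι → ℝ) :
    ∑ a, ∑ b, u a b * (χ a - χ b) = ∑ w, χ w * ((∑ b, u w b) - ∑ a, u a w) := by
  have e1 : ∑ a, ∑ b, u a b * (χ a - χ b) =
      ∑ a, ∑ b, u a b * χ a - ∑ a, ∑ b, u a b * χ b := by
    simp only [mul_sub, Finset.sum_sub_distrib]
  have e2 : ∑ a, ∑ b, u a b * χ b = ∑ b, ∑ a, u a b * χ b := Finset.sum_comm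
  rw [e1, e2, ← Finset.sum_sub_distrib]
  refine Finset.sum_congr rfl fun w _ => ?_
  rw [mul_sub, Finset.mul_sum, Finset.mul_sum]
  congr 1
  · exact Finset.sum_congr rfl fun b _ => mul_comm _ _
  · exact Finset.sum_congr rfl fun b _ => mul_comm _ _

theorem ind1 {p q t : ℝ} (h : p < q) : (if p ≤ t ∧ t < q then (1:ℝ) else 0) =
    (if p ≤ t then 1 else 0) - (if q ≤ t then 1 else 0) := by
  by_cases h1 : p ≤ t
  · by_cases h2 : q ≤ t
    · rw [if_neg (fun h => absurd h.2 (not_lt.2 h2)), if_pos h1, if_pos h2]; ring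
    · rw [if_pos ⟨h1, not_le.1 h2⟩, if_pos h1, if_neg h2]; ring
  · rw [if_neg (fun h => h1 h.1), if_neg h1, if_neg (fun h2 => h1 (by linarith))]; ring

theorem ind2 {s t z : ℝ} (h : s ≤ t) : (if s < z ∧ z ≤ t then (1:ℝ) else 0) =
    (if z ≤ t then 1 else 0) - (if z ≤ s then 1 else 0) := by
  by_cases h1 : z ≤ t
  · by_cases h2 : z ≤ s
    · rw [if_neg (fun h => absurd h.1 (not_lt.2 h2)), if_pos h1, if_pos h2]; ring
    · rw [if_pos ⟨not_le.1 h2, h1⟩, if_pos h1, if_neg h2]; ring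
  · rw [if_neg (fun h => h1 h.2), if_neg h1, if_neg (fun h2 => h1 (by linarith))]; ring

/-- a quantity conserved at every vertex of the slab `t0 < y ≤ t1` has the same sum over both
cuts -/
theorem conserve {α β t0 t1 : ℝ} (h01 : t0 ≤ t1) (h : ι → ι → ℝ)
    (hv : ∀ v, t0 < C.y v → C.y v ≤ t1 →
      ∑ b ∈ outs C α β v, h v b = ∑ a ∈ ins C α β v, h a v) :
    ∑ e ∈ cut C α β t1, h e.1 e.2 = ∑ e ∈ cut C α β t0, h e.1 e.2 := by
  classical
  let g : ι → ι → ℝ := fun a b =>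
    if C.W a b ≠ 0 ∧ α < sl C a b ∧ sl C a b < β then h a b else 0
  have hcut : ∀ t, ∑ e ∈ cut C α β t, h e.1 e.2 =
      ∑ a, ∑ b, g a b * (if C.y a ≤ t ∧ t < C.y b then 1 else 0) := by
    intro t
    rw [← Finset.sum_product', Finset.univ_product_univ, cut, Finset.sum_filter]
    refine Finset.sum_congr rfl fun e _ => ?_
    simp only [g]
    by_cases h1 : C.W e.1 e.2 ≠ 0 ∧ α < sl C e.1 e.2 ∧ sl C e.1 e.2 < β
    · by_cases h2 : C.y e.1 ≤ t ∧ t < C.y e.2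
      · rw [if_pos ⟨h1, h2⟩, if_pos h1, if_pos h2]; ring
      · rw [if_neg (fun h => h2 h.2), if_neg h2]; ring
    · rw [if_neg (fun h => h1 h.1), if_neg h1]; ring
  have hdiff : ∑ a, ∑ b, g a b * (if C.y a ≤ t1 ∧ t1 < C.y b then 1 else 0) -
      ∑ a, ∑ b, g a b * (if C.y a ≤ t0 ∧ t0 < C.y b then 1 else 0) =
      ∑ a, ∑ b, g a b * ((if t0 < C.y a ∧ C.y a ≤ t1 then 1 else 0) -
        (if t0 < C.y b ∧ C.y b ≤ t1 then 1 else 0)) := by
    rw [← Finset.sum_sub_distrib]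
    refine Finset.sum_congr rfl fun a _ => ?_
    rw [← Finset.sum_sub_distrib]
    refine Finset.sum_congr rfl fun b _ => ?_
    by_cases hW : C.W a b = 0
    · have : g a b = 0 := if_neg (fun h => h.1 hW)
      rw [this]; ring
    · have hab := C.W_up a b hW
      rw [← mul_sub]
      congr 1
      rw [ind1 hab, ind1 hab, ind2 h01, ind2 h01]; ring
  rw [hcut, hcut, ← sub_eq_zero, hdiff, chi_eq]
  refine Finset.sum_eq_zero fun w _ => ?_
  split_ifs with hw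
  · have := hv w hw.1 hw.2
    rw [outs, ins, Finset.sum_filter, Finset.sum_filter] at this
    have e : (∑ b, g w b) - ∑ a, g a w = 0 := by
      simp only [g]; rw [this]; ring
    rw [e]; ring
  · ring

end Pool.Agent.TH603.GN
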