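import Pool.Agent.TH603.GN.Basic

set_option autoImplicit false

/-!
# Geodesic nets: the energy of a family of edges and the restricted sheared configuration
-/

namespace Pool.Agent.TH603.GN

open Finset Pool.Agent.W644.GN

variable {ι : Type} [Fintype ι] [DecidableEq ι] {C : Cfg ι}

/-- the energy of a family of edges -/
noncomputable def En (C : Cfg ι) (A : Finset (ι × ι)) : ℝ :=
  (A.card : ℝ) ^ 2 - (∑ e ∈ A, C.ux e.1 e.2) ^ 2 - (∑ e ∈ A, C.uy e.1 e.2) ^ 2

theorem En_eq (A : Finset (ι × ι)) : En C A = ∑ e ∈ A, ∑ f ∈ A, (1 - ip C e f) := by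
  unfold En ip
  simp only [Finset.sum_sub_distrib, Finset.sum_add_distrib, Finset.sum_const, nsmul_eq_mul,
    mul_one]
  rw [sq (∑ e ∈ A, C.ux e.1 e.2), sq (∑ e ∈ A, C.uy e.1 e.2), Finset.sum_mul_sum,
    Finset.sum_mul_sum]
  ring

theorem En_term (hu : IsUnit' C) {A : Finset (ι × ι)} (hA : ∀ e ∈ A, C.W e.1 e.2 ≠ 0)
    {e f : ι × ι} (he : e ∈ A) (hf : f ∈ A) : 1 - ip C e f ≤ En C A := by
  rw [En_eq]
  have h0 : ∀ e ∈ A, ∀ f ∈ A, 0 ≤ 1 - ip C e f := fun e he f hf =>
    sub_nonneg.2 (ip_le_one hu (hA e he) (hA f hf))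
  refine le_trans ?_ (Finset.single_le_sum (f := fun e => ∑ f ∈ A, (1 - ip C e f))
    (fun e he => Finset.sum_nonneg (h0 e he)) he)
  exact Finset.single_le_sum (f := fun f => 1 - ip C e f) (h0 e he) hf

theorem En_nonneg (hu : IsUnit' C) {A : Finset (ι × ι)} (hA : ∀ e ∈ A, C.W e.1 e.2 ≠ 0) :
    0 ≤ En C A := by
  rw [En_eq]
  exact Finset.sum_nonneg fun e he => Finset.sum_nonneg fun f hf =>
    sub_nonneg.2 (ip_le_one hu (hA e he) (hA f hf))

theorem sl_diff_le (hu : IsUnit' C) {A : Finset (ι × ι)} (hA : ∀ e ∈ A, C.W e.1 e.2 ≠ 0)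
    (h4 : ∀ e ∈ A, |sl C e.1 e.2| ≤ 4) {e f : ι × ι} (he : e ∈ A) (hf : f ∈ A) :
    |sl C e.1 e.2 - sl C f.1 f.2| ≤ 36 * Real.sqrt (En C A) := by
  have h1 := sl_sub_le hu (hA e he) (hA f hf) (h4 e he) (h4 f hf)
  have h2 := K_sq_le hu (hA e he) (hA f hf)
  have h3 := En_term hu hA he hf
  have h5 : (25 * |C.K e.1 e.2 f.1 f.2|) ^ 2 ≤ (36 * Real.sqrt (En C A)) ^ 2 := by
    rw [mul_pow, mul_pow, sq_abs, Real.sq_sqrt (En_nonneg hu hA)]
    nlinarith [En_nonneg hu hA]
  refine h1.trans ?_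
  exact le_of_sq_le_sq h5 (by positivity)

theorem exists_diff (hu : IsUnit' C) {A : Finset (ι × ι)} (hA : ∀ e ∈ A, C.W e.1 e.2 ≠ 0)
    (hpos : 0 < En C A) : ∃ e ∈ A, ∃ f ∈ A,
      Real.sqrt (En C A) ≤ (A.card : ℝ) * (sl C e.1 e.2 - sl C f.1 f.2) := by
  by_contra hcon
  push Not at hcon
  have hne : A.Nonempty := by
    rw [Finset.nonempty_iff_ne_empty]
    rintro rfl
    simp [En] at hpos
  have hk : (0:ℝ) < A.card := by exact_mod_cast hne.card_pos
  have h1 : ∀ e ∈ A, ∀ f ∈ A, (A.card : ℝ) ^ 2 * (1 - ip C e f) ≤ En C A / 2 := by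
    intro e he f hf
    have h2 := one_sub_ip_le hu (hA e he) (hA f hf)
    have h3 := hcon e he f hf
    have h4 := hcon f hf e he
    have h5 : ((A.card : ℝ) * (sl C e.1 e.2 - sl C f.1 f.2)) ^ 2 ≤ Real.sqrt (En C A) ^ 2 := by
      apply sq_le_sq'
      · nlinarith
      · exact h3.le
    rw [Real.sq_sqrt hpos.le, mul_pow] at h5
    have : (A.card : ℝ) ^ 2 * (2 * (1 - ip C e f)) ≤ En C A := by
      refine le_trans ?_ h5
      exact mul_le_mul_of_nonneg_left h2 (by positivity)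
    linarith
  have h2 : (A.card : ℝ) ^ 2 * En C A ≤ (A.card : ℝ) ^ 2 * (En C A / 2) := by
    calc (A.card : ℝ) ^ 2 * En C A = ∑ e ∈ A, ∑ f ∈ A, (A.card : ℝ) ^ 2 * (1 - ip C e f) := by
          rw [En_eq, Finset.mul_sum]
          refine Finset.sum_congr rfl fun e _ => ?_
          rw [Finset.mul_sum]
      _ ≤ ∑ e ∈ A, ∑ f ∈ A, En C A / 2 :=
          Finset.sum_le_sum fun e he => Finset.sum_le_sum fun f hf => h1 e he f hf
      _ = (A.card : ℝ) ^ 2 * (En C A / 2) := by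
          simp only [Finset.sum_const, nsmul_eq_mul]; ring
  have h3 := le_of_mul_le_mul_left h2 (by positivity)
  linarith

/-- the mean slope -/
noncomputable def ms (C : Cfg ι) (A : Finset (ι × ι)) : ℝ :=
  (∑ e ∈ A, C.ux e.1 e.2) / (∑ e ∈ A, C.uy e.1 e.2)

theorem ms_close (hu : IsUnit' C) {A : Finset (ι × ι)} (hA : ∀ e ∈ A, C.W e.1 e.2 ≠ 0)
    (h4 : ∀ e ∈ A, |sl C e.1 e.2| ≤ 4) {e : ι × ι} (he : e ∈ A) :
    |C.ux e.1 e.2 - ms C A * C.uy e.1 e.2| ≤ 36 * Real.sqrt (En C A) := by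
  have hy : ∀ f ∈ A, 0 < C.uy f.1 f.2 := fun f hf => C.uy_pos (hA f hf)
  have hZ : 0 < ∑ f ∈ A, C.uy f.1 f.2 := Finset.sum_pos hy ⟨e, he⟩
  have h1 : |sl C e.1 e.2 - ms C A| ≤ 36 * Real.sqrt (En C A) := by
    have h2 : (sl C e.1 e.2 - ms C A) * (∑ f ∈ A, C.uy f.1 f.2) =
        ∑ f ∈ A, (sl C e.1 e.2 - sl C f.1 f.2) * C.uy f.1 f.2 := by
      unfold ms
      rw [sub_mul, div_mul_cancel₀ _ hZ.ne', Finset.mul_sum, ← Finset.sum_sub_distrib]
      refine Finset.sum_congr rfl fun f hf => ?_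
      rw [ux_eq C (hA f hf)]; ring
    have h3 : |sl C e.1 e.2 - ms C A| * (∑ f ∈ A, C.uy f.1 f.2) ≤
        36 * Real.sqrt (En C A) * (∑ f ∈ A, C.uy f.1 f.2) := by
      rw [← abs_of_pos hZ, ← abs_mul, abs_of_pos hZ, h2, Finset.mul_sum]
      refine (Finset.abs_sum_le_sum_abs _ _).trans (Finset.sum_le_sum fun f hf => ?_)
      rw [abs_mul, abs_of_pos (hy f hf)]
      exact mul_le_mul_of_nonneg_right (sl_diff_le hu hA h4 he hf) (hy f hf).le
    exact le_of_mul_le_mul_right h3 hZ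
  have h5 : C.ux e.1 e.2 - ms C A * C.uy e.1 e.2 =
      (sl C e.1 e.2 - ms C A) * C.uy e.1 e.2 := by
    rw [ux_eq C (hA e he)]; ring
  rw [h5, abs_mul, abs_of_pos (hy e he)]
  have h6 := uy_le_one hu (hA e he)
  have h7 := abs_nonneg (sl C e.1 e.2 - ms C A)
  nlinarith [hy e he]

/-! ### the restricted sheared configuration -/

open Classical in
/-- keep only the edges with slope in `(α, β)` that meet the slab, and shear by slope `s` -/
noncomputable def restr (C : Cfg ι) (s α β t0 t1 : ℝ) : Cfg ι where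
  x := fun v => C.x v - s * C.y v
  y := C.y
  W := fun a b =>
    if (α < sl C a b ∧ sl C a b < β) ∧ C.y a ≤ t1 ∧ t0 < C.y b then C.W a b else 0
  y_inj := C.y_inj
  W_nonneg := fun a b => by
    split_ifs
    · exact C.W_nonneg a b
    · exact le_rfl
  W_up := fun a b h => by
    refine C.W_up a b ?_
    intro h'
    apply h
    split_ifs <;> simp [h']
  no_inside := fun a b v h h1 h2 => by
    have h3 : C.W a b ≠ 0 := by
      intro h'
      apply h
      split_ifs <;> simp [h']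
    have := C.no_inside a b v h3 h1 h2
    intro h4
    apply this
    unfold N at h4 ⊢
    linear_combination h4
  no_cross := fun a b c d h h' hne t h1 h2 h3 h4 => by
    have h5 : C.W a b ≠ 0 := by
      intro h'
      apply h
      split_ifs <;> simp [h']
    have h6 : C.W c d ≠ 0 := by
      intro h''
      apply h'
      split_ifs <;> simp [h'']
    have := C.no_cross a b c d h5 h6 hne t h1 h2 h3 h4
    intro h7
    apply this
    unfold Dp at h7 ⊢
    linear_combination h7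

theorem restr_ux (s α β t0 t1 : ℝ) (a b : ι) : (restr C s α β t0 t1).ux a b =
    if (α < sl C a b ∧ sl C a b < β) ∧ C.y a ≤ t1 ∧ t0 < C.y b then
      C.ux a b - s * C.uy a b else 0 := by
  by_cases h : (α < sl C a b ∧ sl C a b < β) ∧ C.y a ≤ t1 ∧ t0 < C.y b
  · simp only [Cfg.ux, Cfg.uy, restr, if_pos h]; ring
  · simp only [Cfg.ux, Cfg.uy, restr, if_neg h]; ring

theorem restr_uy (s α β t0 t1 : ℝ) (a b : ι) : (restr C s α β t0 t1).uy a b =
    if (α < sl C a b ∧ sl C a b < β) ∧ C.y a ≤ t1 ∧ t0 < C.y b then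
      C.uy a b else 0 := by
  by_cases h : (α < sl C a b ∧ sl C a b < β) ∧ C.y a ≤ t1 ∧ t0 < C.y b
  · simp only [Cfg.uy, restr, if_pos h]
  · simp only [Cfg.uy, restr, if_neg h]; ring

theorem uxW {a b : ι} (h : C.W a b = 0) : C.ux a b = 0 := by unfold Cfg.ux; rw [h]; ring
theorem uyW {a b : ι} (h : C.W a b = 0) : C.uy a b = 0 := by unfold Cfg.uy; rw [h]; ring

/-- total of `|D|` over all vertices for a quantity `h` restricted to the slab -/
theorem tot_le {α β t0 t1 : ℝ} (h : ι → ι → ℝ)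
    (hW : ∀ a b, C.W a b = 0 → h a b = 0)
    (hv : ∀ v, t0 < C.y v → C.y v ≤ t1 →
      ∑ b ∈ outs C α β v, h v b = ∑ a ∈ ins C α β v, h a v)
    (g : ι → ι → ℝ)
    (hg : ∀ a b, g a b =
      if (α < sl C a b ∧ sl C a b < β) ∧ C.y a ≤ t1 ∧ t0 < C.y b then h a b else 0) :
    ∑ v, |(∑ b, g v b) - ∑ a, g a v| ≤
      ∑ e ∈ cut C α β t0, |h e.1 e.2| + ∑ e ∈ cut C α β t1, |h e.1 e.2| := by
  classical
  have hc : ∀ t, ∑ e ∈ cut C α β t, |h e.1 e.2| =
      ∑ a, ∑ b, if (C.W a b ≠ 0 ∧ α < sl C a b ∧ sl C a b < β) ∧ C.y a ≤ t ∧ t < C.y b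
        then |h a b| else 0 := by
    intro t
    rw [← Finset.sum_product', Finset.univ_product_univ, cut, Finset.sum_filter]
  rw [hc t0, hc t1, Finset.sum_comm (f := fun a b =>
    if (C.W a b ≠ 0 ∧ α < sl C a b ∧ sl C a b < β) ∧ C.y a ≤ t1 ∧ t1 < C.y b
        then |h a b| else 0), ← Finset.sum_add_distrib]
  refine Finset.sum_le_sum fun v _ => ?_
  have hn1 : 0 ≤ ∑ b, (if (C.W v b ≠ 0 ∧ α < sl C v b ∧ sl C v b < β) ∧ C.y v ≤ t0 ∧ t0 < C.y b
        then |h v b| else 0) := Finset.sum_nonneg fun b _ => by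
    split_ifs
    · exact abs_nonneg _
    · exact le_rfl
  have hn2 : 0 ≤ ∑ a, (if (C.W a v ≠ 0 ∧ α < sl C a v ∧ sl C a v < β) ∧ C.y a ≤ t1 ∧ t1 < C.y v
        then |h a v| else 0) := Finset.sum_nonneg fun b _ => by
    split_ifs
    · exact abs_nonneg _
    · exact le_rfl
  by_cases h0 : C.y v ≤ t0
  · -- below the slab
    have e2 : ∑ a, g a v = 0 := Finset.sum_eq_zero fun a _ => by
      rw [hg, if_neg (fun h => by linarith [h.2.2])]
    rw [e2, sub_zero]
    refine le_trans (Finset.abs_sum_le_sum_abs _ _) ?_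
    refine le_trans (Finset.sum_le_sum fun b _ => ?_) (le_add_of_nonneg_right hn2)
    rw [hg]
    by_cases hWb : C.W v b = 0
    · have : h v b = 0 := hW _ _ hWb
      simp [this, hWb]
    · split_ifs with q1 q2 q2
      · exact le_rfl
      · exact absurd ⟨⟨hWb, q1.1⟩, h0, q1.2.2⟩ q2
      · simp
      · simp
  · push Not at h0
    by_cases h1 : C.y v ≤ t1
    · -- inside the slab
      have e1 : ∑ b, g v b = ∑ b ∈ outs C α β v, h v b := by
        rw [outs, Finset.sum_filter]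
        refine Finset.sum_congr rfl fun b _ => ?_
        rw [hg]
        by_cases hWb : C.W v b = 0
        · have : h v b = 0 := hW _ _ hWb
          simp [this, hWb]
        · have := C.W_up v b hWb
          by_cases hs : α < sl C v b ∧ sl C v b < β
          · rw [if_pos ⟨hs, h1, by linarith⟩, if_pos ⟨hWb, hs⟩]
          · rw [if_neg (fun h => hs h.1), if_neg (fun h => hs h.2)]
      have e2 : ∑ a, g a v = ∑ a ∈ ins C α β v, h a v := by
        rw [ins, Finset.sum_filter]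
        refine Finset.sum_congr rfl fun b _ => ?_
        rw [hg]
        by_cases hWb : C.W b v = 0
        · have : h b v = 0 := hW _ _ hWb
          simp [this, hWb]
        · have := C.W_up b v hWb
          by_cases hs : α < sl C b v ∧ sl C b v < β
          · rw [if_pos ⟨hs, by linarith, h0⟩, if_pos ⟨hWb, hs⟩]
          · rw [if_neg (fun h => hs h.1), if_neg (fun h => hs h.2)]
      rw [e1, e2, hv v h0 h1, sub_self, abs_zero]
      exact add_nonneg hn1 hn2
    · -- above the slab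
      push Not at h1
      have e1 : ∑ b, g v b = 0 := Finset.sum_eq_zero fun a _ => by
        rw [hg, if_neg (fun h => by linarith [h.2.1])]
      rw [e1, zero_sub, abs_neg]
      refine le_trans (Finset.abs_sum_le_sum_abs _ _) ?_
      refine le_trans (Finset.sum_le_sum fun b _ => ?_) (le_add_of_nonneg_left hn1)
      rw [hg]
      by_cases hWb : C.W b v = 0
      · have : h b v = 0 := hW _ _ hWb
        simp [this, hWb]
      · split_ifs with q1 q2 q2
        · exact le_rfl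
        · exact absurd ⟨⟨hWb, q1.1⟩, q1.2.1, h1⟩ q2
        · simp
        · simp

/-- at a vertex of the slab all of whose edges have slope in `(α, β)` the local terms agree -/
theorem restr_J {s α β t0 t1 : ℝ} {v : ι} (h0 : t0 < C.y v) (h1 : C.y v ≤ t1)
    (ho : ∀ b, C.W v b ≠ 0 → α < sl C v b ∧ sl C v b < β)
    (hi : ∀ a, C.W a v ≠ 0 → α < sl C a v ∧ sl C a v < β) :
    (restr C s α β t0 t1).J v = C.J v := by
  have o1 : ∀ b, (restr C s α β t0 t1).ux v b = C.ux v b - s * C.uy v b := by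
    intro b
    rw [restr_ux]
    by_cases hW : C.W v b = 0
    · simp [uxW hW, uyW hW]
    · have := C.W_up v b hW
      rw [if_pos ⟨ho b hW, h1, by linarith⟩]
  have o2 : ∀ b, (restr C s α β t0 t1).uy v b = C.uy v b := by
    intro b
    rw [restr_uy]
    by_cases hW : C.W v b = 0
    · simp [uyW hW]
    · have := C.W_up v b hW
      rw [if_pos ⟨ho b hW, h1, by linarith⟩]
  have i1 : ∀ a, (restr C s α β t0 t1).ux a v = C.ux a v - s * C.uy a v := by
    intro a
    rw [restr_ux]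
    by_cases hW : C.W a v = 0
    · simp [uxW hW, uyW hW]
    · have := C.W_up a v hW
      rw [if_pos ⟨hi a hW, by linarith, h0⟩]
  have i2 : ∀ a, (restr C s α β t0 t1).uy a v = C.uy a v := by
    intro a
    rw [restr_uy]
    by_cases hW : C.W a v = 0
    · simp [uyW hW]
    · have := C.W_up a v hW
      rw [if_pos ⟨hi a hW, by linarith, h0⟩]
  unfold Cfg.J Cfg.K
  simp only [o1, o2, i1, i2]
  congr 1
  · refine Finset.sum_congr rfl fun a _ => Finset.sum_congr rfl fun c _ => ?_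
    congr 1; ring
  · refine Finset.sum_congr rfl fun a _ => Finset.sum_congr rfl fun c _ => ?_
    congr 1; ring

/-- vertices of the slab at which the restricted family is balanced, bound for the sum of `J` -/
theorem sum_J_slab {α β t0 t1 : ℝ} (s : ℝ) (S : Finset ι)
    (hS : ∀ v ∈ S, t0 < C.y v ∧ C.y v ≤ t1 ∧ (∀ b, C.W v b ≠ 0 → α < sl C v b ∧ sl C v b < β) ∧
      (∀ a, C.W a v ≠ 0 → α < sl C a v ∧ sl C a v < β))
    (hx : ∀ v, t0 < C.y v → C.y v ≤ t1 →
      ∑ b ∈ outs C α β v, C.ux v b = ∑ a ∈ ins C α β v, C.ux a v)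
    (hy : ∀ v, t0 < C.y v → C.y v ≤ t1 →
      ∑ b ∈ outs C α β v, C.uy v b = ∑ a ∈ ins C α β v, C.uy a v)
    (X Y : ℝ)
    (hX0 : ∑ e ∈ cut C α β t0, |C.ux e.1 e.2 - s * C.uy e.1 e.2| ≤ X)
    (hX1 : ∑ e ∈ cut C α β t1, |C.ux e.1 e.2 - s * C.uy e.1 e.2| ≤ X)
    (hY0 : ∑ e ∈ cut C α β t0, |C.uy e.1 e.2| ≤ Y)
    (hY1 : ∑ e ∈ cut C α β t1, |C.uy e.1 e.2| ≤ Y) :
    ∑ v ∈ S, C.J v ≤ 12 * (X * Y) := by
  have hTx : (restr C s α β t0 t1).Tx ≤ 2 * X := by
    have := tot_le (C := C) (α := α) (β := β) (fun a b => C.ux a b - s * C.uy a b)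
      (fun a b h => by simp [uxW h, uyW h])
      (fun v h0 h1 => by
        simp only [Finset.sum_sub_distrib, ← Finset.mul_sum]
        rw [hx v h0 h1, hy v h0 h1])
      (restr C s α β t0 t1).ux (fun a b => restr_ux s α β t0 t1 a b)
    refine le_trans this ?_
    linarith
  have hTy : (restr C s α β t0 t1).Ty ≤ 2 * Y := by
    have := tot_le (C := C) (α := α) (β := β) (fun a b => C.uy a b)
      (fun a b h => by simp [uyW h])
      (fun v h0 h1 => hy v h0 h1)
      (restr C s α β t0 t1).uy (fun a b => restr_uy s α β t0 t1 a b)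
    refine le_trans this ?_
    linarith
  have h1 : ∑ v ∈ S, C.J v ≤ ∑ v, (restr C s α β t0 t1).J v := by
    refine le_trans (le_of_eq (Finset.sum_congr rfl fun v hv => ?_))
      (Finset.sum_le_sum_of_subset_of_nonneg (Finset.subset_univ S)
        (fun v _ _ => (restr C s α β t0 t1).J_nonneg v))
    obtain ⟨a1, a2, a3, a4⟩ := hS v hv
    exact (restr_J a1 a2 a3 a4).symm
  have h2 := (restr C s α β t0 t1).sum_J_le
  have hTx0 : 0 ≤ (restr C s α β t0 t1).Tx := Finset.sum_nonneg fun _ _ => abs_nonneg _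
  have hTy0 : 0 ≤ (restr C s α β t0 t1).Ty := Finset.sum_nonneg fun _ _ => abs_nonneg _
  have h3 : (restr C s α β t0 t1).Tx * (restr C s α β t0 t1).Ty ≤ (2 * X) * (2 * Y) :=
    mul_le_mul hTx hTy hTy0 (by linarith)
  linarith

end Pool.Agent.TH603.GN
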