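import Pool.Agent.TH603.GN.Window

set_option autoImplicit false

/-!
# Geodesic nets: counting the collisions inside an isolated cluster of strands
-/

namespace Pool.Agent.TH603.GN

open Finset Pool.Agent.W644.GN

variable {ι : Type} [Fintype ι] [DecidableEq ι] {C : Cfg ι}

open Classical in
/-- all upward edges at `v` -/
noncomputable def outA (C : Cfg ι) (v : ι) : Finset ι := univ.filter (fun b => C.W v b ≠ 0)

open Classical in
/-- all downward edges at `v` -/
noncomputable def insA (C : Cfg ι) (v : ι) : Finset ι := univ.filter (fun a => C.W a v ≠ 0)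

theorem mem_outA {v b : ι} : b ∈ outA C v ↔ C.W v b ≠ 0 := by simp [outA]
theorem mem_insA {v a : ι} : a ∈ insA C v ↔ C.W a v ≠ 0 := by simp [insA]

/-- straight vertex: the upward edges continue the downward edges -/
def Crs (C : Cfg ι) (v : ι) : Prop :=
  ∀ f : ℝ → ℝ, ∑ b ∈ outA C v, f (sl C v b) = ∑ a ∈ insA C v, f (sl C a v)

/-- balanced vertex, with as many upward as downward edges, all with slope in `(α, β)` -/
structure Rel (C : Cfg ι) (α β : ℝ) (v : ι) : Prop where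
  dx : C.Dx v = 0
  dy : C.Dy v = 0
  card : (outA C v).card = (insA C v).card
  two : 2 ≤ (outA C v).card
  ho : ∀ b, C.W v b ≠ 0 → α < sl C v b ∧ sl C v b < β
  hi : ∀ a, C.W a v ≠ 0 → α < sl C a v ∧ sl C a v < β

/-- no edge at `v` has slope in `(α, β)` -/
def Irr (C : Cfg ι) (α β : ℝ) (v : ι) : Prop :=
  (∀ b, C.W v b ≠ 0 → ¬ (α < sl C v b ∧ sl C v b < β)) ∧
  (∀ a, C.W a v ≠ 0 → ¬ (α < sl C a v ∧ sl C a v < β))

/-- in the slab `t0 < y ≤ t1` the family of slopes `(α, β)` is isolated -/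
def SlabOK (C : Cfg ι) (X : Finset ι) (α β t0 t1 : ℝ) : Prop :=
  ∀ v, t0 < C.y v → C.y v ≤ t1 → v ∈ X ∨ Irr C α β v ∨ Rel C α β v

open Classical in
/-- the relevant vertices of the slab -/
noncomputable def RS (C : Cfg ι) (X : Finset ι) (α β t0 t1 : ℝ) : Finset ι :=
  univ.filter (fun v => (t0 < C.y v ∧ C.y v ≤ t1) ∧ v ∉ X ∧ Rel C α β v)

theorem mem_RS {X : Finset ι} {α β t0 t1 : ℝ} {v : ι} : v ∈ RS C X α β t0 t1 ↔
    (t0 < C.y v ∧ C.y v ≤ t1) ∧ v ∉ X ∧ Rel C α β v := by simp [RS]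

theorem uy_fun (hu : IsUnit' C) {a b : ι} (h : C.W a b ≠ 0) :
    C.uy a b = (Real.sqrt (1 + sl C a b ^ 2))⁻¹ := by
  have h1 := uy_sq hu h
  have h2 := C.uy_pos h
  have h3 : (C.uy a b)⁻¹ ^ 2 = 1 + sl C a b ^ 2 := by
    field_simp
    linarith
  rw [← h3, Real.sqrt_sq (inv_pos.2 h2).le, inv_inv]

theorem sum_outs_eq {α β : ℝ} {v : ι} (f : ℝ → ℝ) :
    ∑ b ∈ outs C α β v, f (sl C v b) =
      ∑ b ∈ outA C v, (if α < sl C v b ∧ sl C v b < β then f (sl C v b) else 0) := by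
  rw [← Finset.sum_filter]
  refine Finset.sum_congr ?_ fun _ _ => rfl
  ext b
  simp [mem_outs, mem_outA]

theorem sum_ins_eq {α β : ℝ} {v : ι} (f : ℝ → ℝ) :
    ∑ a ∈ ins C α β v, f (sl C a v) =
      ∑ a ∈ insA C v, (if α < sl C a v ∧ sl C a v < β then f (sl C a v) else 0) := by
  rw [← Finset.sum_filter]
  refine Finset.sum_congr ?_ fun _ _ => rfl
  ext b
  simp [mem_ins, mem_insA]

theorem crs_sum {α β : ℝ} {v : ι} (hv : Crs C v) (f : ℝ → ℝ) :
    ∑ b ∈ outs C α β v, f (sl C v b) = ∑ a ∈ ins C α β v, f (sl C a v) := by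
  rw [sum_outs_eq, sum_ins_eq]
  exact hv (fun s => if α < s ∧ s < β then f s else 0)

theorem outs_of_rel {α β : ℝ} {v : ι} (h : Rel C α β v) : outs C α β v = outA C v := by
  ext b
  rw [mem_outs, mem_outA]
  exact ⟨fun h' => h'.1, fun h' => ⟨h', h.ho b h'⟩⟩

theorem ins_of_rel {α β : ℝ} {v : ι} (h : Rel C α β v) : ins C α β v = insA C v := by
  ext b
  rw [mem_ins, mem_insA]
  exact ⟨fun h' => h'.1, fun h' => ⟨h', h.hi b h'⟩⟩

theorem outs_of_irr {α β : ℝ} {v : ι} (h : Irr C α β v) : outs C α β v = ∅ := by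
  rw [Finset.eq_empty_iff_forall_notMem]
  intro b hb
  rw [mem_outs] at hb
  exact h.1 b hb.1 hb.2

theorem ins_of_irr {α β : ℝ} {v : ι} (h : Irr C α β v) : ins C α β v = ∅ := by
  rw [Finset.eq_empty_iff_forall_notMem]
  intro b hb
  rw [mem_ins] at hb
  exact h.2 b hb.1 hb.2

theorem sum_outA_ux (v : ι) : ∑ b ∈ outA C v, C.ux v b = C.Ox v := by
  unfold Cfg.Ox outA
  rw [Finset.sum_filter]
  refine Finset.sum_congr rfl fun b _ => ?_
  split_ifs with h
  · rfl
  · rw [uxW (not_not.1 h)]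
theorem sum_outA_uy (v : ι) : ∑ b ∈ outA C v, C.uy v b = C.Oy v := by
  unfold Cfg.Oy outA
  rw [Finset.sum_filter]
  refine Finset.sum_congr rfl fun b _ => ?_
  split_ifs with h
  · rfl
  · rw [uyW (not_not.1 h)]
theorem sum_insA_ux (v : ι) : ∑ b ∈ insA C v, C.ux b v = C.Ix v := by
  unfold Cfg.Ix insA
  rw [Finset.sum_filter]
  refine Finset.sum_congr rfl fun b _ => ?_
  split_ifs with h
  · rfl
  · rw [uxW (not_not.1 h)]
theorem sum_insA_uy (v : ι) : ∑ b ∈ insA C v, C.uy b v = C.Iy v := by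
  unfold Cfg.Iy insA
  rw [Finset.sum_filter]
  refine Finset.sum_congr rfl fun b _ => ?_
  split_ifs with h
  · rfl
  · rw [uyW (not_not.1 h)]

section slab

variable {X : Finset ι} {α β t0 t1 : ℝ}

theorem slab_one (hX : ∀ v ∈ X, Crs C v) (hS : SlabOK C X α β t0 t1) (v : ι)
    (h0 : t0 < C.y v) (h1 : C.y v ≤ t1) :
    ∑ b ∈ outs C α β v, (1:ℝ) = ∑ a ∈ ins C α β v, (1:ℝ) := by
  rcases hS v h0 h1 with h | h | h
  · exact crs_sum (hX v h) (fun _ => 1)
  · rw [outs_of_irr h, ins_of_irr h]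
  · rw [outs_of_rel h, ins_of_rel h]
    simp [h.card]

theorem slab_ux (hu : IsUnit' C) (hX : ∀ v ∈ X, Crs C v) (hS : SlabOK C X α β t0 t1) (v : ι)
    (h0 : t0 < C.y v) (h1 : C.y v ≤ t1) :
    ∑ b ∈ outs C α β v, C.ux v b = ∑ a ∈ ins C α β v, C.ux a v := by
  rcases hS v h0 h1 with h | h | h
  · have := crs_sum (α := α) (β := β) (hX v h) (fun s => s * (Real.sqrt (1 + s ^ 2))⁻¹)
    have e1 : ∑ b ∈ outs C α β v, C.ux v b =
        ∑ b ∈ outs C α β v, sl C v b * (Real.sqrt (1 + sl C v b ^ 2))⁻¹ :=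
      Finset.sum_congr rfl fun b hb => by
        have hW := (mem_outs.1 hb).1
        rw [ux_eq C hW, uy_fun hu hW]
    have e2 : ∑ a ∈ ins C α β v, C.ux a v =
        ∑ a ∈ ins C α β v, sl C a v * (Real.sqrt (1 + sl C a v ^ 2))⁻¹ :=
      Finset.sum_congr rfl fun b hb => by
        have hW := (mem_ins.1 hb).1
        rw [ux_eq C hW, uy_fun hu hW]
    rw [e1, e2]
    exact this
  · rw [outs_of_irr h, ins_of_irr h]; simp
  · rw [outs_of_rel h, ins_of_rel h, sum_outA_ux, sum_insA_ux]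
    have := h.dx
    unfold Cfg.Dx at this
    linarith

theorem slab_uy (hu : IsUnit' C) (hX : ∀ v ∈ X, Crs C v) (hS : SlabOK C X α β t0 t1) (v : ι)
    (h0 : t0 < C.y v) (h1 : C.y v ≤ t1) :
    ∑ b ∈ outs C α β v, C.uy v b = ∑ a ∈ ins C α β v, C.uy a v := by
  rcases hS v h0 h1 with h | h | h
  · have := crs_sum (α := α) (β := β) (hX v h) (fun s => (Real.sqrt (1 + s ^ 2))⁻¹)
    have e1 : ∑ b ∈ outs C α β v, C.uy v b =
        ∑ b ∈ outs C α β v, (Real.sqrt (1 + sl C v b ^ 2))⁻¹ :=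
      Finset.sum_congr rfl fun b hb => by
        have hW := (mem_outs.1 hb).1
        rw [uy_fun hu hW]
    have e2 : ∑ a ∈ ins C α β v, C.uy a v =
        ∑ a ∈ ins C α β v, (Real.sqrt (1 + sl C a v ^ 2))⁻¹ :=
      Finset.sum_congr rfl fun b hb => by
        have hW := (mem_ins.1 hb).1
        rw [uy_fun hu hW]
    rw [e1, e2]
    exact this
  · rw [outs_of_irr h, ins_of_irr h]; simp
  · rw [outs_of_rel h, ins_of_rel h, sum_outA_uy, sum_insA_uy]
    have := h.dy
    unfold Cfg.Dy at this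
    linarith

theorem SlabOK.mono {s0 s1 : ℝ} (hS : SlabOK C X α β t0 t1) (h0 : t0 ≤ s0) (h1 : s1 ≤ t1) :
    SlabOK C X α β s0 s1 := fun v h2 h3 => hS v (by linarith) (by linarith)

theorem cut_conserved (hu : IsUnit' C) (hX : ∀ v ∈ X, Crs C v) (hS : SlabOK C X α β t0 t1)
    (h01 : t0 ≤ t1) : (cut C α β t1).card = (cut C α β t0).card ∧
      En C (cut C α β t1) = En C (cut C α β t0) ∧ ms C (cut C α β t1) = ms C (cut C α β t0) := by
  have c1 := conserve (C := C) h01 (fun _ _ => (1:ℝ)) (fun v h0 h1 => slab_one hX hS v h0 h1)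
  have c2 := conserve (C := C) h01 C.ux (fun v h0 h1 => slab_ux hu hX hS v h0 h1)
  have c3 := conserve (C := C) h01 C.uy (fun v h0 h1 => slab_uy hu hX hS v h0 h1)
  simp only [Finset.sum_const, nsmul_eq_mul, mul_one] at c1
  have c4 : (cut C α β t1).card = (cut C α β t0).card := by exact_mod_cast c1
  refine ⟨c4, ?_, ?_⟩
  · unfold En; rw [c1, c2, c3]
  · unfold ms; rw [c2, c3]

theorem cut_W {t : ℝ} : ∀ e ∈ cut C α β t, C.W e.1 e.2 ≠ 0 := fun _ he => (mem_cut.1 he).1.1

theorem cut_four (hα : -4 ≤ α) (hβ : β ≤ 4) {t : ℝ} :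
    ∀ e ∈ cut C α β t, |sl C e.1 e.2| ≤ 4 := fun e he => by
  obtain ⟨⟨-, h1, h2⟩, -⟩ := mem_cut.1 he
  rw [abs_le]; constructor <;> linarith

/-- the total of `J` over the relevant vertices -/
theorem sum_J_RS (hu : IsUnit' C) (hX : ∀ v ∈ X, Crs C v) (hS : SlabOK C X α β t0 t1)
    (h01 : t0 ≤ t1) (hα : -4 ≤ α) (hβ : β ≤ 4) :
    ∑ v ∈ RS C X α β t0 t1, C.J v ≤
      432 * ((cut C α β t0).card : ℝ) ^ 2 * Real.sqrt (En C (cut C α β t0)) := by
  obtain ⟨c1, c2, c3⟩ := cut_conserved hu hX hS h01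
  have key : ∀ t, (cut C α β t).card = (cut C α β t0).card →
      En C (cut C α β t) = En C (cut C α β t0) → ms C (cut C α β t) = ms C (cut C α β t0) →
      ∑ e ∈ cut C α β t, |C.ux e.1 e.2 - ms C (cut C α β t0) * C.uy e.1 e.2| ≤
        (cut C α β t0).card * (36 * Real.sqrt (En C (cut C α β t0))) ∧
      ∑ e ∈ cut C α β t, |C.uy e.1 e.2| ≤ (cut C α β t0).card := by
    intro t h1 h2 h3
    constructor
    · rw [← h1, ← h2, ← h3]
      refine (Finset.sum_le_card_nsmul _ _ _ fun e he =>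
        ms_close hu cut_W (cut_four hα hβ) he).trans ?_
      rw [nsmul_eq_mul]
    · rw [← h1]
      refine (Finset.sum_le_card_nsmul _ _ 1 fun e he => ?_).trans ?_
      · rw [abs_of_pos (C.uy_pos (cut_W e he))]
        exact uy_le_one hu (cut_W e he)
      · rw [nsmul_eq_mul, mul_one]
  obtain ⟨k1, k2⟩ := key t0 rfl rfl rfl
  obtain ⟨k3, k4⟩ := key t1 c1 c2 c3
  have := sum_J_slab (C := C) (α := α) (β := β) (t0 := t0) (t1 := t1)
    (ms C (cut C α β t0)) (RS C X α β t0 t1)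
    (fun v hv => by
      obtain ⟨h1, -, h2⟩ := mem_RS.1 hv
      exact ⟨h1.1, h1.2, h2.ho, h2.hi⟩)
    (fun v h0 h1 => slab_ux hu hX hS v h0 h1) (fun v h0 h1 => slab_uy hu hX hS v h0 h1)
    _ _ k1 k3 k2 k4
  refine this.trans (le_of_eq ?_)
  ring

theorem sl_inj_out {v b b' : ι} (h : C.W v b ≠ 0) (h' : C.W v b' ≠ 0)
    (hs : sl C v b = sl C v b') : b = b' := by
  have key : ∀ b b', C.W v b ≠ 0 → C.W v b' ≠ 0 → sl C v b = sl C v b' →
      ¬ C.y b < C.y b' := by
    intro b b' h h' hs hlt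
    have h1 := C.W_up v b h
    have h2 := C.W_up v b' h'
    refine C.no_inside v b' b h' h1 hlt ?_
    unfold N
    unfold sl at hs
    rw [div_eq_div_iff (by linarith) (by linarith)] at hs
    linear_combination -hs
  refine C.y_inj _ _ (le_antisymm ?_ ?_)
  · exact not_lt.1 (key b' b h' h hs.symm)
  · exact not_lt.1 (key b b' h h' hs)

/-- if there is a relevant vertex then the energy is positive -/
theorem En_pos (hu : IsUnit' C) (hX : ∀ v ∈ X, Crs C v) (hS : SlabOK C X α β t0 t1)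
    (hα : -4 ≤ α) (hβ : β ≤ 4) {v : ι} (hv : v ∈ RS C X α β t0 t1) :
    0 < En C (cut C α β t0) := by
  obtain ⟨⟨h0, h1⟩, -, h2⟩ := mem_RS.1 hv
  obtain ⟨-, c2, -⟩ := cut_conserved hu hX (hS.mono le_rfl h1) h0.le
  rw [← c2]
  refine lt_of_le_of_ne (En_nonneg hu cut_W) (Ne.symm ?_)
  intro h3
  obtain ⟨b, hb, b', hb', hne⟩ := Finset.one_lt_card.1 (lt_of_lt_of_le one_lt_two h2.two)
  rw [mem_outA] at hb hb'
  have m1 : ((v, b) : ι × ι) ∈ cut C α β (C.y v) :=
    mem_cut.2 ⟨⟨hb, h2.ho b hb⟩, le_rfl, C.W_up v b hb⟩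
  have m2 : ((v, b') : ι × ι) ∈ cut C α β (C.y v) :=
    mem_cut.2 ⟨⟨hb', h2.ho b' hb'⟩, le_rfl, C.W_up v b' hb'⟩
  have h4 := sl_diff_le hu cut_W (cut_four hα hβ) m1 m2
  rw [h3, Real.sqrt_zero, mul_zero] at h4
  have h5 : sl C v b - sl C v b' = 0 := abs_eq_zero.1 (le_antisymm h4 (abs_nonneg _))
  exact hne (sl_inj_out hb hb' (by linarith))

end slab

/-- slopes at a balanced vertex are close -/
theorem rel_close (hu : IsUnit' C) {α β : ℝ} (hα : -4 ≤ α) (hβ : β ≤ 4) {v : ι}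
    (h : Rel C α β v) {a : ι} (ha : C.W a v ≠ 0) :
    (∀ b, C.W v b ≠ 0 → |sl C v b - sl C a v| ≤ 25 * C.J v) ∧
    (∀ c, C.W c v ≠ 0 → |sl C c v - sl C a v| ≤ 25 * C.J v) := by
  have f4 : ∀ s : ℝ, α < s ∧ s < β → |s| ≤ 4 := fun s hs => by
    rw [abs_le]; constructor <;> linarith [hs.1, hs.2]
  constructor
  · intro b hb
    have h1 := sl_sub_le hu hb ha (f4 _ (h.ho b hb)) (f4 _ (h.hi a ha))
    have h2 := C.oi h.dx h.dy hb ha
    linarith
  · intro c hc
    have h1 := sl_sub_le hu hc ha (f4 _ (h.hi c hc)) (f4 _ (h.hi a ha))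
    have h2 := C.ii (v := v) (a := c) (c := a)
    linarith

/-- splitting at a free window -/
theorem split (hu : IsUnit' C) {X : Finset ι} (hX : ∀ v ∈ X, Crs C v) {α β t0 t1 : ℝ}
    (hα : -4 ≤ α) (hβ : β ≤ 4) (hS : SlabOK C X α β t0 t1) {γ w : ℝ} (hαγ : α ≤ γ - w)
    (hβγ : γ + w ≤ β)
    (hfree : ∀ e ∈ cut C α β t0, sl C e.1 e.2 ≤ γ - w ∨ γ + w ≤ sl C e.1 e.2)
    (hJ : 25 * ∑ v ∈ RS C X α β t0 t1, C.J v < w) :
    SlabOK C X α γ t0 t1 ∧ SlabOK C X γ β t0 t1 ∧
      RS C X α β t0 t1 ⊆ RS C X α γ t0 t1 ∪ RS C X γ β t0 t1 := by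
  classical
  let j : ι → ℝ := fun v => if v ∈ RS C X α β t0 t1 then 25 * C.J v else 0
  have hj : ∀ v, 0 ≤ j v := fun v => by
    simp only [j]
    split_ifs
    · have := C.J_nonneg v; linarith
    · exact le_rfl
  have hcum : ∀ s, cum C j t0 s < w := by
    intro s
    have h1 : cum C j t0 s ≤ ∑ v, j v :=
      Finset.sum_le_sum_of_subset_of_nonneg (Finset.filter_subset _ _) (fun v _ _ => hj v)
    have h2 : ∑ v, j v = 25 * ∑ v ∈ RS C X α β t0 t1, C.J v := by
      simp only [j]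
      rw [← Finset.sum_filter, Finset.filter_mem_eq_inter, Finset.univ_inter, Finset.mul_sum]
    linarith
  have hper := persist (C := C) (γ := γ) (w := w) (t0 := t0) (t1 := t1) hj
    (by
      intro a b hW h0 h1
      by_cases hs : α < sl C a b ∧ sl C a b < β
      · exact hfree (a, b) (mem_cut.2 ⟨⟨hW, hs⟩, h0, h1⟩)
      · by_cases hs' : α < sl C a b
        · right
          have := not_lt.1 (fun h => hs ⟨hs', h⟩)
          linarith
        · left; linarith [not_lt.1 hs'])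
    (by
      intro v h0 h1 b hW h2 h3
      have hs : α < sl C v b ∧ sl C v b < β := ⟨by linarith, by linarith⟩
      by_cases hvX : v ∈ X
      · have h4 := hX v hvX (fun s => if s = sl C v b then 1 else 0)
        have h5 : (1:ℝ) ≤ ∑ b' ∈ outA C v, (if sl C v b' = sl C v b then (1:ℝ) else 0) := by
          refine le_trans ?_ (Finset.single_le_sum (f := fun b' =>
            (if sl C v b' = sl C v b then (1:ℝ) else 0)) (fun b' _ => by split_ifs <;> norm_num)
            (mem_outA.2 hW))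
          simp
        rw [h4] at h5
        by_contra hcon
        push Not at hcon
        have h6 : ∑ a ∈ insA C v, (if sl C a v = sl C v b then (1:ℝ) else 0) = 0 := by
          refine Finset.sum_eq_zero fun a ha => if_neg ?_
          intro h7
          have := hcon a (mem_insA.1 ha)
          rw [h7, sub_self, abs_zero] at this
          linarith [hj v]
        linarith
      · rcases hS v h0 h1 with h | h | h
        · exact absurd h hvX
        · exact absurd hs (h.1 b hW)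
        · have h4 : (insA C v).Nonempty := by
            rw [← Finset.card_pos, ← h.card]; linarith [h.two]
          obtain ⟨a, ha⟩ := h4
          rw [mem_insA] at ha
          refine ⟨a, ha, ?_⟩
          have h5 : j v = 25 * C.J v := if_pos (mem_RS.2 ⟨⟨h0, h1⟩, hvX, h⟩)
          rw [h5]
          exact (rel_close hu hα hβ h ha).1 b hW)
  -- the dichotomy at relevant vertices
  have hdich : ∀ v, t0 < C.y v → C.y v ≤ t1 → v ∉ X → Rel C α β v →
      (Rel C α γ v ∧ Irr C γ β v) ∨ (Irr C α γ v ∧ Rel C γ β v) := by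
    intro v h0 h1 hvX h
    have h4 : (insA C v).Nonempty := by
      rw [← Finset.card_pos, ← h.card]; linarith [h.two]
    obtain ⟨a, ha⟩ := h4
    rw [mem_insA] at ha
    have hlt := C.W_up a v ha
    obtain ⟨c1, c2⟩ := rel_close hu hα hβ h ha
    have h5 : j v = 25 * C.J v := if_pos (mem_RS.2 ⟨⟨h0, h1⟩, hvX, h⟩)
    rw [← h5] at c1 c2
    have h6 := cum_step (C := C) hj h0 hlt
    have h7 := hcum (C.y v)
    rcases hper a v ha (by linarith) h0 with h8 | h8
    · left
      have o : ∀ b, C.W v b ≠ 0 → sl C v b < γ := fun b hb => by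
        have := (abs_le.1 (c1 b hb)).2; linarith
      have i : ∀ b, C.W b v ≠ 0 → sl C b v < γ := fun b hb => by
        have := (abs_le.1 (c2 b hb)).2; linarith
      refine ⟨⟨h.dx, h.dy, h.card, h.two, fun b hb => ⟨(h.ho b hb).1, o b hb⟩,
        fun b hb => ⟨(h.hi b hb).1, i b hb⟩⟩, ⟨fun b hb h9 => ?_, fun b hb h9 => ?_⟩⟩
      · linarith [o b hb, h9.1]
      · linarith [i b hb, h9.1]
    · right
      have o : ∀ b, C.W v b ≠ 0 → γ < sl C v b := fun b hb => by
        have := (abs_le.1 (c1 b hb)).1; linarith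
      have i : ∀ b, C.W b v ≠ 0 → γ < sl C b v := fun b hb => by
        have := (abs_le.1 (c2 b hb)).1; linarith
      refine ⟨⟨fun b hb h9 => ?_, fun b hb h9 => ?_⟩, ⟨h.dx, h.dy, h.card, h.two,
        fun b hb => ⟨o b hb, (h.ho b hb).2⟩, fun b hb => ⟨i b hb, (h.hi b hb).2⟩⟩⟩
      · linarith [o b hb, h9.2]
      · linarith [i b hb, h9.2]
  have hw0 : 0 < w := by
    have : 0 ≤ ∑ v ∈ RS C X α β t0 t1, C.J v := Finset.sum_nonneg fun v _ => C.J_nonneg v
    linarith
  refine ⟨?_, ?_, ?_⟩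
  · intro v h0 h1
    by_cases hvX : v ∈ X
    · exact Or.inl hvX
    rcases hS v h0 h1 with h | h | h
    · exact Or.inl h
    · exact Or.inr (Or.inl ⟨fun b hb h9 => h.1 b hb ⟨h9.1, by linarith [h9.2]⟩,
        fun b hb h9 => h.2 b hb ⟨h9.1, by linarith [h9.2]⟩⟩)
    · rcases hdich v h0 h1 hvX h with h2 | h2
      · exact Or.inr (Or.inr h2.1)
      · exact Or.inr (Or.inl h2.1)
  · intro v h0 h1
    by_cases hvX : v ∈ X
    · exact Or.inl hvX
    rcases hS v h0 h1 with h | h | h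
    · exact Or.inl h
    · exact Or.inr (Or.inl ⟨fun b hb h9 => h.1 b hb ⟨by linarith [h9.1], h9.2⟩,
        fun b hb h9 => h.2 b hb ⟨by linarith [h9.1], h9.2⟩⟩)
    · rcases hdich v h0 h1 hvX h with h2 | h2
      · exact Or.inr (Or.inl h2.2)
      · exact Or.inr (Or.inr h2.2)
  · intro v hv
    obtain ⟨⟨h0, h1⟩, hvX, h⟩ := mem_RS.1 hv
    rw [Finset.mem_union]
    rcases hdich v h0 h1 hvX h with h2 | h2
    · exact Or.inl (mem_RS.2 ⟨⟨h0, h1⟩, hvX, h2.1⟩)
    · exact Or.inr (mem_RS.2 ⟨⟨h0, h1⟩, hvX, h2.2⟩)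

/-- the bound for the number of collisions in an isolated cluster of at most `k` strands -/
def Nn : ℕ → ℕ
  | 0 => 0
  | (k + 1) => (21600 * (k + 1) ^ 3 * (k + 2) + 1) * (2 * Nn k + 1)

theorem cut_pair (α γ β t : ℝ) (h1 : α ≤ γ) (h2 : γ ≤ β) :
    (cut C α γ t).card + (cut C γ β t).card ≤ (cut C α β t).card := by
  classical
  rw [← Finset.card_union_of_disjoint]
  · apply Finset.card_le_card
    intro e he
    rcases Finset.mem_union.1 he with h | h
    · obtain ⟨⟨a1, a2, a3⟩, a4⟩ := mem_cut.1 h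
      exact mem_cut.2 ⟨⟨a1, a2, by linarith⟩, a4⟩
    · obtain ⟨⟨a1, a2, a3⟩, a4⟩ := mem_cut.1 h
      exact mem_cut.2 ⟨⟨a1, by linarith, a3⟩, a4⟩
  · rw [Finset.disjoint_left]
    intro e he he'
    have := (mem_cut.1 he).1.2.2
    have := (mem_cut.1 he').1.2.1
    linarith

/-- **Main lemma.** In a slab in which the family of slopes `(α, β)` is isolated, and which is
crossed by at most `k` edges of the family, there are at most `Nn k` relevant vertices. -/
theorem slab_count (hu : IsUnit' C) {X : Finset ι} (hX : ∀ v ∈ X, Crs C v) (k : ℕ) :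
    ∀ α β t0 t1 : ℝ, -4 ≤ α → β ≤ 4 → (cut C α β t0).card ≤ k → SlabOK C X α β t0 t1 →
      (RS C X α β t0 t1).card ≤ Nn k := by
  classical
  induction k with
  | zero =>
    intro α β t0 t1 hα hβ hc hS
    rw [Nn, Nat.le_zero, Finset.card_eq_zero, Finset.eq_empty_iff_forall_notMem]
    intro v hv
    have h1 := En_pos hu hX hS hα hβ hv
    have h2 : cut C α β t0 = ∅ := Finset.card_eq_zero.1 (Nat.le_zero.1 hc)
    rw [h2] at h1
    simp [En] at h1
  | succ k ih =>
    intro α β t0 t1 hα hβ hc hS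
    by_cases hne : (RS C X α β t0 t1) = ∅
    · rw [hne]; simp
    obtain ⟨v0, hv0⟩ := Finset.nonempty_iff_ne_empty.2 hne
    have h01 : t0 ≤ t1 := by
      have := (mem_RS.1 hv0).1; linarith [this.1, this.2]
    have hE := En_pos hu hX hS hα hβ hv0
    set ω := Real.sqrt (En C (cut C α β t0)) with hω
    have hω0 : 0 < ω := Real.sqrt_pos.2 hE
    set K : ℝ := (k : ℝ) + 1 with hK
    have hK0 : 0 < K := by positivity
    have hcK : ((cut C α β t0).card : ℝ) ≤ K := by
      have : ((cut C α β t0).card : ℝ) ≤ ((k + 1 : ℕ) : ℝ) := by exact_mod_cast hc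
      rw [hK]; push_cast at this; exact this
    set η : ℝ := ω / (50 * K * (K + 1)) with hη
    have hη0 : 0 < η := by positivity
    have hT := sum_J_RS hu hX hS h01 hα hβ
    rw [← hω] at hT
    refine count_classes (RS C X α β t0 t1) (RS C X α β t0 t1) C.y
      (fun a _ b _ h => C.y_inj a b h) C.J (fun v _ => C.J_nonneg v) η hη0
      (21600 * (k + 1) ^ 3 * (k + 2) + 1) (2 * Nn k) ?_ ?_
    · refine lt_of_le_of_lt hT ?_
      have h1 : 432 * ((cut C α β t0).card : ℝ) ^ 2 * ω ≤ 432 * K ^ 2 * ω := by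
        have : ((cut C α β t0).card : ℝ) ^ 2 ≤ K ^ 2 := by
          have h0 : (0:ℝ) ≤ ((cut C α β t0).card : ℝ) := by positivity
          nlinarith
        nlinarith
      refine lt_of_le_of_lt h1 ?_
      have h2 : ((21600 * (k + 1) ^ 3 * (k + 2) + 1 : ℕ) : ℝ) * η =
          432 * K ^ 2 * ω + η := by
        rw [hη, hK]
        push_cast
        field_simp
        ring
      rw [h2]; linarith
    · intro u hu' s hus hsum
      obtain ⟨⟨hu0, hu1⟩, huX, hur⟩ := mem_RS.1 hu'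
      -- the sub-slab
      set s1 := min s t1 with hs1
      have hus1 : C.y u ≤ s1 := le_min hus hu1
      have hS' : SlabOK C X α β (C.y u) s1 := hS.mono hu0.le (min_le_right _ _)
      obtain ⟨c1, c2, -⟩ := cut_conserved hu hX (hS.mono le_rfl hu1) hu0.le
      have hRS : (RS C X α β t0 t1).filter (fun v => C.y u < C.y v ∧ C.y v ≤ s) =
          RS C X α β (C.y u) s1 := by
        ext v
        rw [Finset.mem_filter, mem_RS, mem_RS]
        constructor
        · rintro ⟨⟨⟨a1, a2⟩, a3⟩, a4, a5⟩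
          exact ⟨⟨a4, le_min a5 a2⟩, a3⟩
        · rintro ⟨⟨a1, a2⟩, a3⟩
          exact ⟨⟨⟨by linarith, a2.trans (min_le_right _ _)⟩, a3⟩, a1, a2.trans (min_le_left _ _)⟩
      rw [hRS] at hsum ⊢
      have hE' : 0 < En C (cut C α β (C.y u)) := by rw [c2]; exact hE
      obtain ⟨e, he, f, hf, hef⟩ := exists_diff hu cut_W hE'
      rw [c2, ← hω, c1] at hef
      have hd0 : 0 < sl C e.1 e.2 - sl C f.1 f.2 := by
        by_contra hcon
        push Not at hcon
        have : ((cut C α β t0).card : ℝ) * (sl C e.1 e.2 - sl C f.1 f.2) ≤ 0 :=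
          mul_nonpos_of_nonneg_of_nonpos (by positivity) hcon
        linarith
      have hef' : ω ≤ K * (sl C e.1 e.2 - sl C f.1 f.2) :=
        hef.trans (mul_le_mul_of_nonneg_right hcK hd0.le)
      obtain ⟨γ, w, hw, hγ1, hγ2, hfree⟩ := gap (cut C α β (C.y u))
        (fun e => sl C e.1 e.2) (k + 1) (by rw [c1]; exact hc)
        (show sl C f.1 f.2 < sl C e.1 e.2 by linarith)
      obtain ⟨⟨hfW, hf1, hf2⟩, hf3⟩ := mem_cut.1 hf
      obtain ⟨⟨heW, he1, he2⟩, he3⟩ := mem_cut.1 he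
      have hw' : 25 * η ≤ w := by
        rw [hw, hη]
        push_cast
        rw [← hK]
        rw [le_div_iff₀ (by positivity)]
        have : 25 * (ω / (50 * K * (K + 1))) * (2 * (K + 1)) = ω / K := by
          field_simp; ring
        rw [this, div_le_iff₀ hK0]
        linarith
      have hw0 : 0 < w := by linarith
      obtain ⟨s1', s2', s3'⟩ := split hu hX hα hβ hS' (γ := γ) (w := w) (by linarith)
        (by linarith) hfree (by linarith)
      have hp := cut_pair (C := C) α γ β (C.y u) (by linarith) (by linarith)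
      have hf' : 1 ≤ (cut C α γ (C.y u)).card := by
        rw [Nat.one_le_iff_ne_zero, Ne, Finset.card_eq_zero, ← Ne,
          ← Finset.nonempty_iff_ne_empty]
        exact ⟨f, mem_cut.2 ⟨⟨hfW, hf1, by linarith⟩, hf3⟩⟩
      have he' : 1 ≤ (cut C γ β (C.y u)).card := by
        rw [Nat.one_le_iff_ne_zero, Ne, Finset.card_eq_zero, ← Ne,
          ← Finset.nonempty_iff_ne_empty]
        exact ⟨e, mem_cut.2 ⟨⟨heW, by linarith, he2⟩, he3⟩⟩
      have i1 := ih α γ (C.y u) s1 hα (by linarith) (by omega) s1'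
      have i2 := ih γ β (C.y u) s1 (by linarith) hβ (by omega) s2'
      calc (RS C X α β (C.y u) s1).card ≤ _ := Finset.card_le_card s3'
        _ ≤ _ := Finset.card_union_le _ _
        _ ≤ 2 * Nn k := by omega

end Pool.Agent.TH603.GN
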