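import Pool.Agent.TH603.GN.Energy

set_option autoImplicit false

/-!
# Geodesic nets: gaps, persistence of a gap, counting by classes
-/

namespace Pool.Agent.TH603.GN

open Finset Pool.Agent.W644.GN

/-- among `m` points some window of the interval `[p, q]` is free -/
theorem gap {κ : Type*} (A : Finset κ) (f : κ → ℝ) (m : ℕ) (hA : A.card ≤ m) {p q : ℝ}
    (hpq : p < q) : ∃ γ w : ℝ, w = (q - p) / (2 * ((m : ℝ) + 1)) ∧ p ≤ γ - w ∧ γ + w ≤ q ∧
      ∀ e ∈ A, f e ≤ γ - w ∨ γ + w ≤ f e := by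
  classical
  set w : ℝ := (q - p) / (2 * ((m : ℝ) + 1)) with hw
  have hm : (0:ℝ) < (m : ℝ) + 1 := by positivity
  have hw0 : 0 < w := div_pos (by linarith) (by linarith)
  have hwm : 2 * w * ((m : ℝ) + 1) = q - p := by rw [hw]; field_simp
  have h1 : ∃ j ∈ Finset.range (m + 1), j ∉ A.image (fun e => ⌊(f e - p) / (2 * w)⌋₊) := by
    by_contra hcon
    push Not at hcon
    have h2 : Finset.range (m + 1) ⊆ A.image (fun e => ⌊(f e - p) / (2 * w)⌋₊) := hcon
    have h3 := (Finset.card_le_card h2).trans Finset.card_image_le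
    rw [Finset.card_range] at h3
    omega
  obtain ⟨j, hj, hj'⟩ := h1
  rw [Finset.mem_range] at hj
  have hj1 : (j : ℝ) + 1 ≤ (m : ℝ) + 1 := by exact_mod_cast hj
  refine ⟨p + 2 * w * j + w, w, rfl, ?_, ?_, ?_⟩
  · have : 0 ≤ 2 * w * (j : ℝ) := by positivity
    linarith
  · have : 2 * w * ((j : ℝ) + 1) ≤ 2 * w * ((m : ℝ) + 1) :=
      mul_le_mul_of_nonneg_left hj1 (by positivity)
    linarith
  · intro e he
    by_contra hcon
    push Not at hcon
    obtain ⟨h2, h3⟩ := hcon
    apply hj'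
    rw [Finset.mem_image]
    refine ⟨e, he, ?_⟩
    rw [Nat.floor_eq_iff]
    · constructor
      · rw [le_div_iff₀ (by positivity)]; linarith
      · rw [div_lt_iff₀ (by positivity)]; linarith
    · apply div_nonneg _ (by positivity)
      have : 0 ≤ 2 * w * (j : ℝ) := by positivity
      linarith

open Classical in
/-- counting by classes of the cumulative weight -/
theorem count_classes {ι : Type*} (R U : Finset ι) (y : ι → ℝ)
    (hy : ∀ a ∈ R, ∀ b ∈ R, y a = y b → a = b) (j : ι → ℝ) (hj : ∀ v ∈ U, 0 ≤ j v)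
    (η : ℝ) (hη : 0 < η) (B N : ℕ) (hB : ∑ v ∈ U, j v < B * η)
    (hN : ∀ u ∈ R, ∀ s, y u ≤ s → ∑ v ∈ U.filter (fun v => y u < y v ∧ y v ≤ s), j v < η →
      (R.filter (fun v => y u < y v ∧ y v ≤ s)).card ≤ N) :
    R.card ≤ B * (N + 1) := by
  let g : ι → ℝ := fun v => ∑ v' ∈ U.filter (fun v' => y v' ≤ y v), j v'
  let c : ι → ℕ := fun v => ⌊g v / η⌋₊
  have hg0 : ∀ v, 0 ≤ g v := fun v => Finset.sum_nonneg fun v' hv' =>
    hj v' (Finset.mem_filter.1 hv').1
  have hgT : ∀ v, g v ≤ ∑ v ∈ U, j v := fun v =>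
    Finset.sum_le_sum_of_subset_of_nonneg (Finset.filter_subset _ _) (fun v' hv' _ => hj v' hv')
  have him : (R.image c).card ≤ B := by
    have : R.image c ⊆ Finset.range B := by
      intro n hn
      obtain ⟨v, -, rfl⟩ := Finset.mem_image.1 hn
      rw [Finset.mem_range]
      have h1 : g v / η < B := by
        rw [div_lt_iff₀ hη]; exact lt_of_le_of_lt (hgT v) hB
      exact (Nat.floor_lt (div_nonneg (hg0 v) hη.le)).2 h1
    simpa using Finset.card_le_card this
  have hfib : ∀ n ∈ R.image c, (R.filter (fun v => c v = n)).card ≤ N + 1 := by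
    intro n hn
    obtain ⟨v0, hv0, hv0n⟩ := Finset.mem_image.1 hn
    have hne : (R.filter (fun v => c v = n)).Nonempty := ⟨v0, Finset.mem_filter.2 ⟨hv0, hv0n⟩⟩
    obtain ⟨u, hu, humin⟩ := Finset.exists_min_image _ y hne
    obtain ⟨w, hw, hwmax⟩ := Finset.exists_max_image _ y hne
    obtain ⟨huR, huc⟩ := Finset.mem_filter.1 hu
    obtain ⟨hwR, hwc⟩ := Finset.mem_filter.1 hw
    have huw : y u ≤ y w := humin w hw
    have h1 := hN u huR (y w) huw ?_
    · have h2 : R.filter (fun v => c v = n) ⊆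
          insert u (R.filter (fun v => y u < y v ∧ y v ≤ y w)) := by
        intro v hv
        obtain ⟨hvR, hvc⟩ := Finset.mem_filter.1 hv
        rw [Finset.mem_insert]
        rcases (humin v hv).lt_or_eq with h3 | h3
        · right
          exact Finset.mem_filter.2 ⟨hvR, h3, hwmax v hv⟩
        · left
          exact hy v hvR u huR h3.symm
      exact (Finset.card_le_card h2).trans ((Finset.card_insert_le _ _).trans (by omega))
    · have h3 : g w = g u + ∑ v ∈ U.filter (fun v => y u < y v ∧ y v ≤ y w), j v := by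
        have h4 : U.filter (fun v' => y v' ≤ y w) = U.filter (fun v' => y v' ≤ y u) ∪
            U.filter (fun v => y u < y v ∧ y v ≤ y w) := by
          ext v
          simp only [Finset.mem_filter, Finset.mem_union]
          constructor
          · rintro ⟨h5, h6⟩
            rcases le_or_gt (y v) (y u) with h7 | h7
            · exact Or.inl ⟨h5, h7⟩
            · exact Or.inr ⟨h5, h7, h6⟩
          · rintro (⟨h5, h6⟩ | ⟨h5, h6, h7⟩)
            · exact ⟨h5, h6.trans huw⟩
            · exact ⟨h5, h7⟩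
        change ∑ v' ∈ U.filter (fun v' => y v' ≤ y w), j v' = _
        rw [h4, Finset.sum_union]
        rw [Finset.disjoint_left]
        intro v hv hv'
        have := (Finset.mem_filter.1 hv).2
        have := (Finset.mem_filter.1 hv').2.1
        linarith
      have h5 : ⌊g u / η⌋₊ = ⌊g w / η⌋₊ := by
        change c u = c w
        rw [huc, hwc]
      have h6 : g w / η < ⌊g w / η⌋₊ + 1 := Nat.lt_floor_add_one _
      have h7 : (⌊g u / η⌋₊ : ℝ) ≤ g u / η := Nat.floor_le (div_nonneg (hg0 u) hη.le)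
      rw [h5] at h7
      have h8 : g w / η - g u / η < 1 := by linarith
      rw [← sub_div, div_lt_one hη] at h8
      linarith
  calc R.card ≤ (N + 1) * (R.image c).card := Finset.card_le_mul_card_image R (N + 1) hfib
    _ ≤ (N + 1) * B := Nat.mul_le_mul_left _ him
    _ = B * (N + 1) := Nat.mul_comm _ _

variable {ι : Type} [Fintype ι] [DecidableEq ι] {C : Cfg ι}

open Classical in
/-- cumulative weight of the vertices with height in `(t0, s]` -/
noncomputable def cum (C : Cfg ι) (j : ι → ℝ) (t0 s : ℝ) : ℝ :=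
  ∑ v ∈ univ.filter (fun v => t0 < C.y v ∧ C.y v ≤ s), j v

theorem cum_nonneg {j : ι → ℝ} (hj : ∀ v, 0 ≤ j v) (t0 s : ℝ) : 0 ≤ cum C j t0 s :=
  Finset.sum_nonneg fun v _ => hj v

theorem cum_mono {j : ι → ℝ} (hj : ∀ v, 0 ≤ j v) (t0 : ℝ) {s s' : ℝ} (h : s ≤ s') :
    cum C j t0 s ≤ cum C j t0 s' := by
  classical
  refine Finset.sum_le_sum_of_subset_of_nonneg ?_ (fun v _ _ => hj v)
  intro v hv
  rw [Finset.mem_filter] at hv ⊢
  exact ⟨hv.1, hv.2.1, hv.2.2.trans h⟩

theorem cum_step {j : ι → ℝ} (hj : ∀ v, 0 ≤ j v) {t0 : ℝ} {a v : ι} (h0 : t0 < C.y v)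
    (h : C.y a < C.y v) : cum C j t0 (C.y a) + j v ≤ cum C j t0 (C.y v) := by
  classical
  unfold cum
  have h1 : v ∉ univ.filter (fun v => t0 < C.y v ∧ C.y v ≤ C.y a) := by
    rw [Finset.mem_filter]
    rintro ⟨-, -, h3⟩
    linarith
  rw [add_comm, ← Finset.sum_insert h1]
  refine Finset.sum_le_sum_of_subset_of_nonneg ?_ (fun v _ _ => hj v)
  intro u hu
  rw [Finset.mem_insert] at hu
  rw [Finset.mem_filter]
  rcases hu with rfl | hu
  · exact ⟨Finset.mem_univ _, h0, le_rfl⟩
  · obtain ⟨h2, h3, h4⟩ := Finset.mem_filter.1 hu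
    exact ⟨h2, h3, by linarith⟩

/-- slopes stay away from a gap -/
theorem persist {γ w t0 t1 : ℝ} {j : ι → ℝ} (hj : ∀ v, 0 ≤ j v)
    (h0 : ∀ a b, C.W a b ≠ 0 → C.y a ≤ t0 → t0 < C.y b →
      sl C a b ≤ γ - w ∨ γ + w ≤ sl C a b)
    (hv : ∀ v, t0 < C.y v → C.y v ≤ t1 → ∀ b, C.W v b ≠ 0 → γ - w < sl C v b →
      sl C v b < γ + w → ∃ a, C.W a v ≠ 0 ∧ |sl C v b - sl C a v| ≤ j v) :
    ∀ a b, C.W a b ≠ 0 → C.y a ≤ t1 → t0 < C.y b →
      sl C a b ≤ γ - w + cum C j t0 (C.y a) ∨ γ + w - cum C j t0 (C.y a) ≤ sl C a b := by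
  classical
  have key : ∀ n : ℕ, ∀ a b, (univ.filter (fun v => C.y v < C.y a)).card = n → C.W a b ≠ 0 →
      C.y a ≤ t1 → t0 < C.y b →
      sl C a b ≤ γ - w + cum C j t0 (C.y a) ∨ γ + w - cum C j t0 (C.y a) ≤ sl C a b := by
    intro n
    induction n using Nat.strong_induction_on with
    | _ n ih =>
      intro a b hn hW h1 h2
      have hc := cum_nonneg (C := C) hj t0 (C.y a)
      by_cases h3 : C.y a ≤ t0
      · rcases h0 a b hW h3 h2 with h4 | h4
        · left; linarith
        · right; linarith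
      · push Not at h3
        by_cases h4 : sl C a b ≤ γ - w
        · left; linarith
        by_cases h5 : γ + w ≤ sl C a b
        · right; linarith
        push Not at h4 h5
        obtain ⟨a', hW', ha'⟩ := hv a h3 h1 b hW h4 h5
        have hlt := C.W_up a' a hW'
        have hcard : (univ.filter (fun v => C.y v < C.y a')).card < n := by
          rw [← hn]
          apply Finset.card_lt_card
          rw [Finset.ssubset_iff_of_subset]
          · exact ⟨a', by simp [hlt], by simp⟩
          · intro v hv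
            rw [Finset.mem_filter] at hv ⊢
            exact ⟨hv.1, by linarith [hv.2]⟩
        have h6 := ih _ hcard a' a rfl hW' (by linarith) h3
        have h7 := cum_step (C := C) hj h3 hlt
        rw [abs_le] at ha'
        rcases h6 with h6 | h6
        · left; linarith
        · right; linarith
  intro a b
  exact key _ a b rfl

end Pool.Agent.TH603.GN
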